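import Mathlib

/-!
Abstract tools: an implicit function statement for a map with values in a closed subspace, and
the Banach algebra of bounded continuous real functions with its shift and reflection operators.
-/

set_option autoImplicit false

open Topology Filter

namespace Pool.Agent.H113Z.FB

section abstr

variable {E F : Type*} [NormedAddCommGroup E] [NormedSpace ℝ E]
  [NormedAddCommGroup F] [NormedSpace ℝ F]

theorem hasDerivAt_line (G : E → F) (L : E →L[ℝ] F) (a v : E) (hG : HasFDerivAt G L a) :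
    HasDerivAt (fun ε : ℝ => G (a + ε • v)) (L v) 0 := by
  have h1 : HasDerivAt (fun ε : ℝ => a + ε • v) v 0 := by
    simpa using ((hasDerivAt_id (0 : ℝ)).smul_const v).const_add a
  have h2 : HasFDerivAt G L (a + (0 : ℝ) • v) := by simpa using hG
  exact h2.comp_hasDerivAt (0 : ℝ) h1

theorem fderiv_mem (Y : Submodule ℝ F) (hY : IsClosed (Y : Set F)) (G : E → F) (L : E →L[ℝ] F)
    (a : E) (hG : HasFDerivAt G L a) (hmem : ∀ p, G p ∈ Y) (v : E) : L v ∈ Y := by
  have h := hasDerivAt_line G L a v hG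
  rw [hasDerivAt_iff_tendsto_slope_zero] at h
  refine hY.mem_of_tendsto h (Eventually.of_forall fun t => ?_)
  exact Y.smul_mem _ (Y.sub_mem (hmem _) (hmem _))

theorem exists_zero_near [CompleteSpace E] [CompleteSpace F]
    (Y : Submodule ℝ F) (hY : IsClosed (Y : Set F)) (G : E × ℝ → F) (hG : ContDiff ℝ 1 G)
    (hmem : ∀ p, G p ∈ Y) (a : E) (h0 : G (a, 0) = 0)
    (hsurj : ∀ y ∈ Y, ∃ v : E, fderiv ℝ G (a, 0) (v, 0) = y)
    (W : Set (E × ℝ)) (hW : W ∈ 𝓝 ((a, 0) : E × ℝ)) : ∃ p ∈ W, p.2 ≠ 0 ∧ G p = 0 := by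
  have : CompleteSpace Y := hY.completeSpace_coe
  set L := fderiv ℝ G (a, 0) with hL
  have hs : HasStrictFDerivAt G L (a, 0) := hG.hasStrictFDerivAt (by simp)
  have hLm : ∀ v, L v ∈ Y := fderiv_mem Y hY G L _ hs.hasFDerivAt hmem
  let G' : E × ℝ → Y := fun p => ⟨G p, hmem p⟩
  let L' : (E × ℝ) →L[ℝ] Y := L.codRestrict Y hLm
  have hs' : HasStrictFDerivAt G' L' (a, 0) := by
    rw [hasStrictFDerivAt_iff_isLittleO] at hs ⊢
    refine (Asymptotics.isLittleO_norm_left.1 ?_)
    refine (Asymptotics.isLittleO_norm_left.2 hs).congr_left fun p => ?_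
    rfl
  have hs2 : HasStrictFDerivAt (fun p : E × ℝ => (G' p, p.2))
      (L'.prod (ContinuousLinearMap.snd ℝ E ℝ)) (a, 0) :=
    hs'.prodMk hasStrictFDerivAt_snd
  have hr : (L'.prod (ContinuousLinearMap.snd ℝ E ℝ)).range = ⊤ := by
    rw [eq_top_iff]
    rintro ⟨y, s⟩ -
    obtain ⟨v, hv⟩ := hsurj (y.1 - L (0, s)) (Y.sub_mem y.2 (hLm _))
    refine ⟨(v, s), ?_⟩
    have : L (v, s) = y.1 := by
      have e : ((v, s) : E × ℝ) = (v, 0) + (0, s) := by simp
      rw [e, map_add, hv]; simp
    ext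
    · simpa [L'] using this
    · simp
  have hmap := hs2.map_nhds_eq_of_surj hr
  have hG0 : G' (a, 0) = 0 := Subtype.ext h0
  have him : (fun p : E × ℝ => (G' p, p.2)) '' W ∈ 𝓝 ((0 : Y), (0 : ℝ)) := by
    have := image_mem_map (m := fun p : E × ℝ => (G' p, p.2)) hW
    rw [hmap] at this
    simpa [hG0] using this
  have hc : Tendsto (fun s : ℝ => ((0 : Y), s)) (𝓝[≠] 0) (𝓝 ((0 : Y), (0 : ℝ))) :=
    (Continuous.tendsto (by fun_prop) (0 : ℝ)).mono_left nhdsWithin_le_nhds
  obtain ⟨s, ⟨p, hp, hps⟩, hs0⟩ := ((hc.eventually him).and self_mem_nhdsWithin).exists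
  refine ⟨p, hp, ?_, ?_⟩
  · have : p.2 = s := congrArg Prod.snd hps
    rw [this]; exact hs0
  · have : G' p = 0 := congrArg Prod.fst hps
    exact congrArg Subtype.val this

end abstr

/-- bounded continuous real functions on the line -/
abbrev B : Type := BoundedContinuousFunction ℝ ℝ

/-- a third of the full turn -/
noncomputable def tau : ℝ := 2 * Real.pi / 3

theorem tau_pos : 0 < tau := by unfold tau; have := Real.pi_pos; positivity

theorem three_tau : tau + tau + tau = 2 * Real.pi := by unfold tau; ring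

/-- shift forward -/
noncomputable def P : B →L[ℝ] B :=
  BoundedContinuousFunction.compContinuousCLM ℝ ℝ ⟨fun t => t + tau, by fun_prop⟩

/-- shift backward -/
noncomputable def N : B →L[ℝ] B :=
  BoundedContinuousFunction.compContinuousCLM ℝ ℝ ⟨fun t => t - tau, by fun_prop⟩

/-- shift by a full turn -/
noncomputable def S : B →L[ℝ] B :=
  BoundedContinuousFunction.compContinuousCLM ℝ ℝ ⟨fun t => t + 2 * Real.pi, by fun_prop⟩

/-- reflection -/
noncomputable def R : B →L[ℝ] B :=
  BoundedContinuousFunction.compContinuousCLM ℝ ℝ ⟨fun t => -t, by fun_prop⟩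

@[simp] theorem P_apply (f : B) (t : ℝ) : P f t = f (t + tau) := rfl
@[simp] theorem N_apply (f : B) (t : ℝ) : N f t = f (t - tau) := rfl
@[simp] theorem S_apply (f : B) (t : ℝ) : S f t = f (t + 2 * Real.pi) := rfl
@[simp] theorem R_apply (f : B) (t : ℝ) : R f t = f (-t) := rfl

/-- a continuous periodic function as a bounded continuous function -/
theorem exists_B (f : ℝ → ℝ) (hc : Continuous f) (hp : ∀ t, f (t + 2 * Real.pi) = f t) :
    ∃ g : B, ∀ t, g t = f t := by
  have hb := Function.Periodic.isBounded_of_continuous (f := f) (c := 2 * Real.pi) hp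
    (by have := Real.pi_pos; positivity) hc
  obtain ⟨C, hC⟩ := hb.exists_norm_le
  exact ⟨BoundedContinuousFunction.ofNormedAddCommGroup f hc C (fun t => hC _ ⟨t, rfl⟩),
    fun t => rfl⟩

theorem isClosed_deriv : IsClosed {p : B × B | ∀ t, HasDerivAt p.1 (p.2 t) t} := by
  refine IsSeqClosed.isClosed ?_
  intro x p hx hp t
  have h1 : Tendsto (fun n => (x n).1) atTop (𝓝 p.1) := (continuous_fst.tendsto p).comp hp
  have h2 : Tendsto (fun n => (x n).2) atTop (𝓝 p.2) := (continuous_snd.tendsto p).comp hp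
  rw [BoundedContinuousFunction.tendsto_iff_tendstoUniformly] at h1 h2
  exact hasDerivAt_of_tendstoUniformly (f := fun n => (x n).1) (f' := fun n => (x n).2) h2
    (Eventually.of_forall fun n => hx n) (fun y => h1.tendsto_at y) t

/-- triples: a function with its first two derivatives -/
abbrev J : Type := B × B × B

/-- the triples whose entries really are successive derivatives -/
def JS : Submodule ℝ J where
  carrier := {j | (∀ t, HasDerivAt j.1 (j.2.1 t) t) ∧ ∀ t, HasDerivAt j.2.1 (j.2.2 t) t}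
  add_mem' := by
    rintro j k ⟨h1, h2⟩ ⟨k1, k2⟩
    exact ⟨fun t => (h1 t).add (k1 t), fun t => (h2 t).add (k2 t)⟩
  zero_mem' := ⟨fun t => hasDerivAt_const t (0 : ℝ), fun t => hasDerivAt_const t (0 : ℝ)⟩
  smul_mem' := by
    rintro c j ⟨h1, h2⟩
    exact ⟨fun t => (h1 t).const_smul c, fun t => (h2 t).const_smul c⟩

theorem mem_JS (j : J) :
    j ∈ JS ↔ (∀ t, HasDerivAt j.1 (j.2.1 t) t) ∧ ∀ t, HasDerivAt j.2.1 (j.2.2 t) t := Iff.rfl

theorem isClosed_JS : IsClosed (JS : Set J) := by
  have h1 : IsClosed {j : J | ∀ t, HasDerivAt j.1 (j.2.1 t) t} :=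
    isClosed_deriv.preimage (f := fun j : J => (j.1, j.2.1)) (by fun_prop)
  have h2 : IsClosed {j : J | ∀ t, HasDerivAt j.2.1 (j.2.2 t) t} :=
    isClosed_deriv.preimage (f := fun j : J => j.2) (by fun_prop)
  exact h1.inter h2

/-- the functions on which two continuous linear operators agree -/
noncomputable def EqS (A C : B →L[ℝ] B) : Submodule ℝ B := (A - C).ker

theorem mem_EqS (A C : B →L[ℝ] B) (f : B) : f ∈ EqS A C ↔ ∀ t, A f t = C f t := by
  unfold EqS
  rw [LinearMap.mem_ker]
  constructor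
  · intro h t
    have h' : A f - C f = 0 := h
    rw [sub_eq_zero] at h'
    rw [h']
  · intro h
    show A f - C f = 0
    rw [sub_eq_zero]
    ext t; exact h t

theorem isClosed_EqS (A C : B →L[ℝ] B) : IsClosed (EqS A C : Set B) :=
  ContinuousLinearMap.isClosed_ker _

/-- even functions of period a full turn -/
noncomputable def PE : Submodule ℝ B := EqS S 1 ⊓ EqS R 1
/-- odd functions of period a full turn -/
noncomputable def PO : Submodule ℝ B := EqS S 1 ⊓ EqS R (-1)
/-- even functions of period a full turn whose three shifts add up to zero -/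
noncomputable def ZE : Submodule ℝ B := PE ⊓ EqS (1 + P + N) 0
/-- even functions of period a third of a turn -/
noncomputable def YE : Submodule ℝ B := EqS P 1 ⊓ EqS R 1

theorem mem_PE (f : B) :
    f ∈ PE ↔ (∀ t, f (t + 2 * Real.pi) = f t) ∧ ∀ t, f (-t) = f t := by
  simp [PE, mem_EqS]
theorem mem_PO (f : B) :
    f ∈ PO ↔ (∀ t, f (t + 2 * Real.pi) = f t) ∧ ∀ t, f (-t) = - f t := by
  simp [PO, mem_EqS]
theorem mem_ZE (f : B) :
    f ∈ ZE ↔ ((∀ t, f (t + 2 * Real.pi) = f t) ∧ ∀ t, f (-t) = f t) ∧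
      ∀ t, f t + f (t + tau) + f (t - tau) = 0 := by
  simp [ZE, mem_PE, mem_EqS]
theorem mem_YE (f : B) :
    f ∈ YE ↔ (∀ t, f (t + tau) = f t) ∧ ∀ t, f (-t) = f t := by
  simp [YE, mem_EqS]

theorem isClosed_PE : IsClosed (PE : Set B) := (isClosed_EqS _ _).inter (isClosed_EqS _ _)
theorem isClosed_PO : IsClosed (PO : Set B) := (isClosed_EqS _ _).inter (isClosed_EqS _ _)
theorem isClosed_ZE : IsClosed (ZE : Set B) := isClosed_PE.inter (isClosed_EqS _ _)
theorem isClosed_YE : IsClosed (YE : Set B) := (isClosed_EqS _ _).inter (isClosed_EqS _ _)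

/-- triples of derivatives whose first entry lies in a given subspace -/
noncomputable def JJ (A : Submodule ℝ B) : Submodule ℝ J := JS ⊓ A.prod ⊤

theorem mem_JJ (A : Submodule ℝ B) (j : J) : j ∈ JJ A ↔
    ((∀ t, HasDerivAt j.1 (j.2.1 t) t) ∧ ∀ t, HasDerivAt j.2.1 (j.2.2 t) t) ∧ j.1 ∈ A := by
  simp [JJ, mem_JS]

theorem isClosed_JJ (A : Submodule ℝ B) (hA : IsClosed (A : Set B)) : IsClosed (JJ A : Set J) :=
  isClosed_JS.inter (hA.prod isClosed_univ)

section transfer

variable {V : Type*} [NormedAddCommGroup V] [NormedSpace ℝ V]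

theorem deriv_shift {f g : ℝ → V} (h : ∀ t, HasDerivAt f (g t) t) (c : ℝ)
    (hp : ∀ t, f (t + c) = f t) (t : ℝ) : g (t + c) = g t := by
  have h1 : HasDerivAt (fun s => f (s + c)) (g (t + c)) t := (h (t + c)).comp_add_const t c
  have : (fun s => f (s + c)) = f := funext hp
  rw [this] at h1
  exact h1.unique (h t)

theorem hasDerivAt_refl {f g : ℝ → V} (h : ∀ t, HasDerivAt f (g t) t) (t : ℝ) :
    HasDerivAt (fun s => f (-s)) (- g (-t)) t := by
  have h1 := (h (-t)).scomp t (hasDerivAt_neg t)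
  rw [neg_one_smul] at h1
  exact h1

theorem deriv_even {f g : ℝ → V} (h : ∀ t, HasDerivAt f (g t) t)
    (hp : ∀ t, f (-t) = f t) (t : ℝ) : g (-t) = - g t := by
  have h1 := hasDerivAt_refl h t
  have : (fun s => f (-s)) = f := funext hp
  rw [this] at h1
  have := h1.unique (h t)
  rw [← this, neg_neg]

theorem deriv_odd {f g : ℝ → V} (h : ∀ t, HasDerivAt f (g t) t)
    (hp : ∀ t, f (-t) = - f t) (t : ℝ) : g (-t) = g t := by
  have h1 := hasDerivAt_refl h t
  have : (fun s => f (-s)) = fun s => - f s := funext hp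
  rw [this] at h1
  have := h1.unique (h t).neg
  exact neg_injective this

theorem deriv_sum0 {f g : ℝ → V} (h : ∀ t, HasDerivAt f (g t) t)
    (hp : ∀ t, f t + f (t + tau) + f (t - tau) = 0) (t : ℝ) :
    g t + g (t + tau) + g (t - tau) = 0 := by
  have h1 : HasDerivAt (fun s => f s + f (s + tau) + f (s - tau))
      (g t + g (t + tau) + g (t - tau)) t :=
    ((h t).add ((h (t + tau)).comp_add_const t tau)).add ((h (t - tau)).comp_sub_const t tau)
  have : (fun s => f s + f (s + tau) + f (s - tau)) = fun _ => 0 := funext hp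
  rw [this] at h1
  exact h1.unique (hasDerivAt_const t 0)

end transfer

section shifts

variable {V : Type*} {f : ℝ → V}

theorem per_pp (hp : ∀ t, f (t + 2 * Real.pi) = f t) (t : ℝ) : f (t + tau + tau) = f (t - tau) := by
  rw [← hp (t - tau), ← three_tau]; congr 1; ring

theorem per_mm (hp : ∀ t, f (t + 2 * Real.pi) = f t) (t : ℝ) : f (t - tau - tau) = f (t + tau) := by
  rw [← hp (t - tau - tau), ← three_tau]; congr 1; ring

theorem per_Tp (hp : ∀ t, f (t + 2 * Real.pi) = f t) (t : ℝ) :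
    f (t + 2 * Real.pi + tau) = f (t + tau) := by
  rw [← hp (t + tau)]; congr 1; ring

theorem per_Tm (hp : ∀ t, f (t + 2 * Real.pi) = f t) (t : ℝ) :
    f (t + 2 * Real.pi - tau) = f (t - tau) := by
  rw [← hp (t - tau)]; congr 1; ring

theorem per1_m (hp : ∀ t, f (t + tau) = f t) (t : ℝ) : f (t - tau) = f t := by
  rw [← hp (t - tau)]; congr 1; ring

theorem per1_T (hp : ∀ t, f (t + tau) = f t) (t : ℝ) : f (t + 2 * Real.pi) = f t := by
  rw [← three_tau, ← add_assoc, ← add_assoc, hp, hp, hp]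

theorem neg_p (t : ℝ) : -t + tau = -(t - tau) := by ring
theorem neg_m (t : ℝ) : -t - tau = -(t + tau) := by ring

end shifts

end Pool.Agent.H113Z.FB
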