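import Pool.Agent.H113Z.FB.Abstract

/-!
The rescaled equations of motion in the rotating frame, as a polynomial map between Banach spaces.
-/

set_option autoImplicit false

open Topology Filter

namespace Pool.Agent.H113Z.FB

/-- the square root of three -/
noncomputable def rt : ℝ := Real.sqrt 3

theorem rt2 : rt ^ 2 = 3 := Real.sq_sqrt (by norm_num)
theorem rt3 : rt ^ 3 = 3 * rt := by rw [pow_succ, rt2]
theorem rt4 : rt ^ 4 = 9 := by rw [show (4 : ℕ) = 2 * 2 from rfl, pow_mul, rt2]; norm_num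
theorem rt_pos : 0 < rt := Real.sqrt_pos.2 (by norm_num)
theorem rt_lo : 1.73 < rt := by nlinarith [rt2, rt_pos]
theorem rt_hi : rt < 1.74 := by nlinarith [rt2, rt_pos]

/-- unknowns: jets of `a, b, z, y`, functions `σ, χ`, numbers `ν, x` -/
abbrev U : Type := J × J × J × J × B × B × ℝ × ℝ

/-- six equations -/
abbrev T : Type := B × B × B × B × B × B

/-- the symmetric unknowns -/
noncomputable def X : Submodule ℝ U :=
  (JJ PE).prod ((JJ PO).prod ((JJ ZE).prod ((JJ YE).prod (PE.prod (PE.prod ⊤)))))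

/-- the symmetric right hand sides -/
noncomputable def Y : Submodule ℝ T := PE.prod (PE.prod (PE.prod (PO.prod (ZE.prod YE))))

theorem isClosed_X : IsClosed (X : Set U) :=
  (isClosed_JJ _ isClosed_PE).prod ((isClosed_JJ _ isClosed_PO).prod
    ((isClosed_JJ _ isClosed_ZE).prod ((isClosed_JJ _ isClosed_YE).prod
      (isClosed_PE.prod (isClosed_PE.prod isClosed_univ)))))

theorem isClosed_Y : IsClosed (Y : Set T) :=
  isClosed_PE.prod (isClosed_PE.prod (isClosed_PE.prod (isClosed_PO.prod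
    (isClosed_ZE.prod isClosed_YE))))

/-- `((1 + e f)^3 - 1) / e` -/
noncomputable def c3 (e : ℝ) (f : B) : B := (3 : ℝ) • f + (3 * e) • (f * f) + (e * e) • (f * f * f)

/-- real part of the rescaled central force -/
noncomputable def fR (e : ℝ) (a σ : B) : B := a + c3 e σ + e • (a * c3 e σ)
/-- imaginary part of the rescaled central force -/
noncomputable def fI (e : ℝ) (b σ : B) : B := b + e • (b * c3 e σ)
/-- rescaled vertical central force -/
noncomputable def fV (e : ℝ) (z y σ : B) : B := y + (z + e • y) * c3 e σ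

/-- rotation by a third of a turn of the backward shift, real part -/
noncomputable def rNr (f g : B) : B := (-1 / 2 : ℝ) • N f - (rt / 2) • N g
/-- rotation by a third of a turn of the backward shift, imaginary part -/
noncomputable def rNi (f g : B) : B := (rt / 2) • N f - (1 / 2 : ℝ) • N g
/-- rotation by minus a third of a turn of the forward shift, real part -/
noncomputable def rPr (f g : B) : B := (-1 / 2 : ℝ) • P f + (rt / 2) • P g
/-- rotation by minus a third of a turn of the forward shift, imaginary part -/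
noncomputable def rPi (f g : B) : B := (-rt / 2) • P f - (1 / 2 : ℝ) • P g

/-- sum of the three shifts -/
noncomputable def sm (f : B) : B := f + P f + N f

/-- equation for the inverse distance to the central mass -/
noncomputable def gS (e : ℝ) (a b z y σ : B) : B :=
  (2 : ℝ) • σ + e • (σ * σ) + ((2 : ℝ) • a + e • (a * a + b * b + (z + e • y) * (z + e • y)))
    * ((1 + e • σ) * (1 + e • σ))

/-- equation for the inverse mutual distance -/
noncomputable def gC (e : ℝ) (a b z χ : B) : B :=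
  (6 : ℝ) • χ + (3 * e) • (χ * χ) + ((2 * rt) • (rNi a b - rPi a b)
    + e • ((rNr a b - rPr a b) * (rNr a b - rPr a b) + (rNi a b - rPi a b) * (rNi a b - rPi a b)
      + (N z - P z) * (N z - P z))) * ((1 + e • χ) * (1 + e • χ))

/-- planar equation, real part -/
noncomputable def gR (e ν x : ℝ) (a a2 b b1 σ χ : B) : B :=
  (ν * ν) • a2 - (2 * ν) • b1 - a + (1 - x) • fR e a σ
    + (rt * x) • (fR e a σ + rNr (fR e a σ) (fI e b σ) + rPr (fR e a σ) (fI e b σ))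
    - (x / 3) • ((rNr a b - a) * (1 + e • P (c3 e χ)) - (3 / 2 : ℝ) • P (c3 e χ)
      + (rPr a b - a) * (1 + e • N (c3 e χ)) - (3 / 2 : ℝ) • N (c3 e χ))

/-- planar equation, imaginary part -/
noncomputable def gI (e ν x : ℝ) (a a1 b b2 σ χ : B) : B :=
  (ν * ν) • b2 + (2 * ν) • a1 - b + (1 - x) • fI e b σ
    + (rt * x) • (fI e b σ + rNi (fR e a σ) (fI e b σ) + rPi (fR e a σ) (fI e b σ))
    - (x / 3) • ((rNi a b - b) * (1 + e • P (c3 e χ)) + (rt / 2) • P (c3 e χ)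
      + (rPi a b - b) * (1 + e • N (c3 e χ)) - (rt / 2) • N (c3 e χ))

/-- vertical equation, main part -/
noncomputable def gZ (e ν x : ℝ) (z z2 y σ χ : B) : B :=
  (ν * ν) • z2 + z + e • ((1 - x) • (fV e z y σ - (1 / 3 : ℝ) • sm (fV e z y σ))
    - (x / 3) • ((N z - z) * P (c3 e χ) + (P z - z) * N (c3 e χ)))

/-- vertical equation, symmetric part -/
noncomputable def gY (e ν x : ℝ) (z y y2 σ : B) : B :=
  (ν * ν) • y2 + ((1 + (3 * rt - 1) * x) / 3) • sm (fV e z y σ)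

/-- all the equations -/
noncomputable def G (p : U × ℝ) : T :=
  (gS p.2 p.1.1.1 p.1.2.1.1 p.1.2.2.1.1 p.1.2.2.2.1.1 p.1.2.2.2.2.1,
   gC p.2 p.1.1.1 p.1.2.1.1 p.1.2.2.1.1 p.1.2.2.2.2.2.1,
   gR p.2 p.1.2.2.2.2.2.2.1 p.1.2.2.2.2.2.2.2 p.1.1.1 p.1.1.2.2 p.1.2.1.1 p.1.2.1.2.1
     p.1.2.2.2.2.1 p.1.2.2.2.2.2.1,
   gI p.2 p.1.2.2.2.2.2.2.1 p.1.2.2.2.2.2.2.2 p.1.1.1 p.1.1.2.1 p.1.2.1.1 p.1.2.1.2.2
     p.1.2.2.2.2.1 p.1.2.2.2.2.2.1,
   gZ p.2 p.1.2.2.2.2.2.2.1 p.1.2.2.2.2.2.2.2 p.1.2.2.1.1 p.1.2.2.1.2.2 p.1.2.2.2.1.1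
     p.1.2.2.2.2.1 p.1.2.2.2.2.2.1,
   gY p.2 p.1.2.2.2.2.2.2.1 p.1.2.2.2.2.2.2.2 p.1.2.2.1.1 p.1.2.2.2.1.1 p.1.2.2.2.1.2.2
     p.1.2.2.2.2.1)

section smooth

variable {E : Type*} [NormedAddCommGroup E] [NormedSpace ℝ E]
  {e ν x : E → ℝ} {a a1 a2 b b1 b2 z z2 y y2 σ χ f g : E → B}

@[fun_prop] theorem cd_P (hf : ContDiff ℝ 1 f) : ContDiff ℝ 1 (fun p => P (f p)) :=
  P.contDiff.comp hf
@[fun_prop] theorem cd_N (hf : ContDiff ℝ 1 f) : ContDiff ℝ 1 (fun p => N (f p)) :=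
  N.contDiff.comp hf
@[fun_prop] theorem cd_c3 (he : ContDiff ℝ 1 e) (hf : ContDiff ℝ 1 f) :
    ContDiff ℝ 1 (fun p => c3 (e p) (f p)) := by unfold c3; fun_prop
@[fun_prop] theorem cd_fR (he : ContDiff ℝ 1 e) (hf : ContDiff ℝ 1 f) (hg : ContDiff ℝ 1 g) :
    ContDiff ℝ 1 (fun p => fR (e p) (f p) (g p)) := by unfold fR; fun_prop
@[fun_prop] theorem cd_fI (he : ContDiff ℝ 1 e) (hf : ContDiff ℝ 1 f) (hg : ContDiff ℝ 1 g) :
    ContDiff ℝ 1 (fun p => fI (e p) (f p) (g p)) := by unfold fI; fun_prop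
@[fun_prop] theorem cd_fV (he : ContDiff ℝ 1 e) (hz : ContDiff ℝ 1 z) (hf : ContDiff ℝ 1 f)
    (hg : ContDiff ℝ 1 g) :
    ContDiff ℝ 1 (fun p => fV (e p) (z p) (f p) (g p)) := by unfold fV; fun_prop
@[fun_prop] theorem cd_rNr (hf : ContDiff ℝ 1 f) (hg : ContDiff ℝ 1 g) :
    ContDiff ℝ 1 (fun p => rNr (f p) (g p)) := by unfold rNr; fun_prop
@[fun_prop] theorem cd_rNi (hf : ContDiff ℝ 1 f) (hg : ContDiff ℝ 1 g) :
    ContDiff ℝ 1 (fun p => rNi (f p) (g p)) := by unfold rNi; fun_prop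
@[fun_prop] theorem cd_rPr (hf : ContDiff ℝ 1 f) (hg : ContDiff ℝ 1 g) :
    ContDiff ℝ 1 (fun p => rPr (f p) (g p)) := by unfold rPr; fun_prop
@[fun_prop] theorem cd_rPi (hf : ContDiff ℝ 1 f) (hg : ContDiff ℝ 1 g) :
    ContDiff ℝ 1 (fun p => rPi (f p) (g p)) := by unfold rPi; fun_prop
@[fun_prop] theorem cd_sm (hf : ContDiff ℝ 1 f) :
    ContDiff ℝ 1 (fun p => sm (f p)) := by unfold sm; fun_prop

end smooth

theorem contDiff_G : ContDiff ℝ 1 G := by
  unfold G gS gC gR gI gZ gY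
  fun_prop

section eval

variable (e ν x : ℝ) (a a1 a2 b b1 b2 z z2 y y2 σ χ f g : B) (t : ℝ)

theorem c3_apply : c3 e f t = 3 * f t + 3 * e * f t ^ 2 + e ^ 2 * f t ^ 3 := by
  simp [c3]; ring
theorem fR_apply : fR e a σ t = a t + c3 e σ t + e * (a t * c3 e σ t) := by simp [fR]
theorem fI_apply : fI e b σ t = b t + e * (b t * c3 e σ t) := by simp [fI]
theorem fV_apply : fV e z y σ t = y t + (z t + e * y t) * c3 e σ t := by simp [fV]
theorem rNr_apply : rNr f g t = -1 / 2 * f (t - tau) - rt / 2 * g (t - tau) := by simp [rNr]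
theorem rNi_apply : rNi f g t = rt / 2 * f (t - tau) - 1 / 2 * g (t - tau) := by simp [rNi]
theorem rPr_apply : rPr f g t = -1 / 2 * f (t + tau) + rt / 2 * g (t + tau) := by simp [rPr]
theorem rPi_apply : rPi f g t = -rt / 2 * f (t + tau) - 1 / 2 * g (t + tau) := by simp [rPi]
theorem sm_apply : sm f t = f t + f (t + tau) + f (t - tau) := by simp [sm]

theorem gS_apply : gS e a b z y σ t = 2 * σ t + e * σ t ^ 2
    + (2 * a t + e * (a t ^ 2 + b t ^ 2 + (z t + e * y t) ^ 2)) * (1 + e * σ t) ^ 2 := by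
  simp [gS]; ring

theorem gC_apply : gC e a b z χ t = 6 * χ t + 3 * e * χ t ^ 2
    + (2 * rt * (rNi a b t - rPi a b t) + e * ((rNr a b t - rPr a b t) ^ 2
      + (rNi a b t - rPi a b t) ^ 2 + (z (t - tau) - z (t + tau)) ^ 2)) * (1 + e * χ t) ^ 2 := by
  simp [gC]; ring

theorem gR_apply : gR e ν x a a2 b b1 σ χ t = ν ^ 2 * a2 t - 2 * ν * b1 t - a t
    + (1 - x) * fR e a σ t
    + rt * x * (fR e a σ t + rNr (fR e a σ) (fI e b σ) t + rPr (fR e a σ) (fI e b σ) t)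
    - x / 3 * ((rNr a b t - a t) * (1 + e * c3 e χ (t + tau)) - 3 / 2 * c3 e χ (t + tau)
      + (rPr a b t - a t) * (1 + e * c3 e χ (t - tau)) - 3 / 2 * c3 e χ (t - tau)) := by
  simp [gR]; ring

theorem gI_apply : gI e ν x a a1 b b2 σ χ t = ν ^ 2 * b2 t + 2 * ν * a1 t - b t
    + (1 - x) * fI e b σ t
    + rt * x * (fI e b σ t + rNi (fR e a σ) (fI e b σ) t + rPi (fR e a σ) (fI e b σ) t)
    - x / 3 * ((rNi a b t - b t) * (1 + e * c3 e χ (t + tau)) + rt / 2 * c3 e χ (t + tau)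
      + (rPi a b t - b t) * (1 + e * c3 e χ (t - tau)) - rt / 2 * c3 e χ (t - tau)) := by
  simp [gI]; ring

theorem gZ_apply : gZ e ν x z z2 y σ χ t = ν ^ 2 * z2 t + z t
    + e * ((1 - x) * (fV e z y σ t - 1 / 3 * sm (fV e z y σ) t)
      - x / 3 * ((z (t - tau) - z t) * c3 e χ (t + tau)
        + (z (t + tau) - z t) * c3 e χ (t - tau))) := by
  simp [gZ]; ring

theorem gY_apply : gY e ν x z y y2 σ t = ν ^ 2 * y2 t
    + (1 + (3 * rt - 1) * x) / 3 * sm (fV e z y σ) t := by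
  simp [gY, sq]

end eval

end Pool.Agent.H113Z.FB
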