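import Mathlib

/-!
From the equations relative to the central mass to the four-body equations in the
centre of mass frame.
-/

set_option autoImplicit false

namespace Pool.Agent.H113Z.FB

/-- Euclidean three-space -/
abbrev E3 : Type := EuclideanSpace ℝ (Fin 3)

theorem contDiff_two {f f1 f2 : ℝ → E3} (h1 : ∀ t, HasDerivAt f (f1 t) t)
    (h2 : ∀ t, HasDerivAt f1 (f2 t) t) (hc : Continuous f2) : ContDiff ℝ 2 f := by
  have e1 : deriv f = f1 := funext fun t => (h1 t).deriv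
  have e2 : deriv f1 = f2 := funext fun t => (h2 t).deriv
  rw [show (2 : WithTop ℕ∞) = 1 + 1 from rfl, contDiff_succ_iff_deriv]
  refine ⟨fun t => (h1 t).differentiableAt, by simp, ?_⟩
  rw [e1, contDiff_one_iff_deriv, e2]
  exact ⟨fun t => (h2 t).differentiableAt, hc⟩

theorem helio (M m : ℝ) (hM : 0 < M) (hm : 0 < m) (p0 p1 p2 v0 v1 v2 w0 w1 w2 : ℝ → E3)
    (dp0 : ∀ t, HasDerivAt p0 (v0 t) t) (dp1 : ∀ t, HasDerivAt p1 (v1 t) t)
    (dp2 : ∀ t, HasDerivAt p2 (v2 t) t) (dv0 : ∀ t, HasDerivAt v0 (w0 t) t)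
    (dv1 : ∀ t, HasDerivAt v1 (w1 t) t) (dv2 : ∀ t, HasDerivAt v2 (w2 t) t)
    (c0 : Continuous w0) (c1 : Continuous w1) (c2 : Continuous w2)
    (e0 : ∀ t, w0 t = -((M / ‖p0 t‖ ^ 3) • p0 t) - ((m / ‖p0 t‖ ^ 3) • p0 t
      + (m / ‖p1 t‖ ^ 3) • p1 t + (m / ‖p2 t‖ ^ 3) • p2 t)
      + (m / ‖p1 t - p0 t‖ ^ 3) • (p1 t - p0 t) + (m / ‖p2 t - p0 t‖ ^ 3) • (p2 t - p0 t))
    (e1 : ∀ t, w1 t = -((M / ‖p1 t‖ ^ 3) • p1 t) - ((m / ‖p1 t‖ ^ 3) • p1 t
      + (m / ‖p2 t‖ ^ 3) • p2 t + (m / ‖p0 t‖ ^ 3) • p0 t)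
      + (m / ‖p2 t - p1 t‖ ^ 3) • (p2 t - p1 t) + (m / ‖p0 t - p1 t‖ ^ 3) • (p0 t - p1 t))
    (e2 : ∀ t, w2 t = -((M / ‖p2 t‖ ^ 3) • p2 t) - ((m / ‖p2 t‖ ^ 3) • p2 t
      + (m / ‖p0 t‖ ^ 3) • p0 t + (m / ‖p1 t‖ ^ 3) • p1 t)
      + (m / ‖p0 t - p2 t‖ ^ 3) • (p0 t - p2 t) + (m / ‖p1 t - p2 t‖ ^ 3) • (p1 t - p2 t))
    (hli : ∀ t, ∀ a b c : ℝ, a • p0 t + b • p1 t + c • p2 t = 0 → a = 0 ∧ b = 0 ∧ c = 0)
    (hen : ∀ t, (‖v0 t‖ ^ 2 + ‖v1 t‖ ^ 2 + ‖v2 t‖ ^ 2) / 2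
      < M * (1 / ‖p0 t‖ + 1 / ‖p1 t‖ + 1 / ‖p2 t‖)
        + m * (1 / ‖p1 t - p0 t‖ + 1 / ‖p2 t - p0 t‖ + 1 / ‖p2 t - p1 t‖))
    (R : ℝ) (hR : ∀ t, ‖p0 t‖ ≤ R ∧ ‖p1 t‖ ≤ R ∧ ‖p2 t‖ ≤ R) :
    ∃ (m : Fin 4 → ℝ) (x : Fin 4 → ℝ → EuclideanSpace ℝ (Fin 3)),
      (∀ i, 0 < m i) ∧
      (∀ i, ContDiff ℝ 2 (x i)) ∧
      (∀ t : ℝ, ∀ i j : Fin 4, i ≠ j → x i t ≠ x j t) ∧
      (∀ t : ℝ, ∀ i : Fin 4,
        deriv (deriv (x i)) t =
          ∑ j ∈ Finset.univ.erase i, (m j / ‖x j t - x i t‖ ^ 3) • (x j t - x i t)) ∧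
      (∀ t : ℝ, ∑ i, m i • x i t = 0) ∧
      (∀ t : ℝ,
        (1 / 2 : ℝ) * ∑ i, m i * ‖deriv (x i) t‖ ^ 2
          - (1 / 2 : ℝ) * ∑ i, ∑ j ∈ Finset.univ.erase i, m i * m j / ‖x i t - x j t‖ < 0) ∧
      (∀ t : ℝ, AffineIndependent ℝ (fun i => x i t)) ∧
      (∃ R : ℝ, ∀ i : Fin 4, ∀ t : ℝ, ‖x i t‖ ≤ R) := by
  have hN : 0 < M + 3 * m := by positivity
  set k : ℝ := -(m / (M + 3 * m)) with hk
  have hk' : k * (M + 3 * m) = -m := by rw [hk]; field_simp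
  let s : ℝ → E3 := fun t => k • (p0 t + p1 t + p2 t)
  let s1 : ℝ → E3 := fun t => k • (v0 t + v1 t + v2 t)
  let s2 : ℝ → E3 := fun t => k • (w0 t + w1 t + w2 t)
  have ds : ∀ t, HasDerivAt s (s1 t) t := fun t =>
    (((dp0 t).add (dp1 t)).add (dp2 t)).const_smul k
  have ds1 : ∀ t, HasDerivAt s1 (s2 t) t := fun t =>
    (((dv0 t).add (dv1 t)).add (dv2 t)).const_smul k
  have cs : Continuous s2 := by fun_prop
  let x : Fin 4 → ℝ → E3 := ![s, fun t => p0 t + s t, fun t => p1 t + s t, fun t => p2 t + s t]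
  let x1 : Fin 4 → ℝ → E3 :=
    ![s1, fun t => v0 t + s1 t, fun t => v1 t + s1 t, fun t => v2 t + s1 t]
  let x2 : Fin 4 → ℝ → E3 :=
    ![s2, fun t => w0 t + s2 t, fun t => w1 t + s2 t, fun t => w2 t + s2 t]
  have dx : ∀ i t, HasDerivAt (x i) (x1 i t) t := by
    intro i t
    fin_cases i
    · exact ds t
    · exact (dp0 t).add (ds t)
    · exact (dp1 t).add (ds t)
    · exact (dp2 t).add (ds t)
  have dx1 : ∀ i t, HasDerivAt (x1 i) (x2 i t) t := by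
    intro i t
    fin_cases i
    · exact ds1 t
    · exact (dv0 t).add (ds1 t)
    · exact (dv1 t).add (ds1 t)
    · exact (dv2 t).add (ds1 t)
  have cx : ∀ i, Continuous (x2 i) := by
    intro i
    fin_cases i
    · exact cs
    · exact c0.add cs
    · exact c1.add cs
    · exact c2.add cs
  have der1 : ∀ i, deriv (x i) = x1 i := fun i => funext fun t => (dx i t).deriv
  have der2 : ∀ i, deriv (x1 i) = x2 i := fun i => funext fun t => (dx1 i t).deriv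
  have hs2 : ∀ t, s2 t = (m / ‖p0 t‖ ^ 3) • p0 t + (m / ‖p1 t‖ ^ 3) • p1 t
      + (m / ‖p2 t‖ ^ 3) • p2 t := by
    intro t
    simp only [s2, e0, e1, e2, norm_sub_rev (p0 t) (p1 t), norm_sub_rev (p0 t) (p2 t),
      norm_sub_rev (p1 t) (p2 t), div_eq_mul_inv]
    generalize (‖p0 t‖ ^ 3)⁻¹ = a0
    generalize (‖p1 t‖ ^ 3)⁻¹ = a1
    generalize (‖p2 t‖ ^ 3)⁻¹ = a2
    match_scalars
    · linear_combination (-a0) * hk'
    · linear_combination (-a1) * hk'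
    · linear_combination (-a2) * hk'
  have hai : ∀ t : ℝ, AffineIndependent ℝ (fun i => x i t) := by
    intro t
    rw [affineIndependent_iff]
    intro S w hw hsum e he
    classical
    let w' : Fin 4 → ℝ := fun i => if i ∈ S then w i else 0
    have h1 : ∑ i, w' i = 0 := by
      rw [← hw]; simp only [w']; rw [Finset.sum_ite_mem, Finset.univ_inter]
    have h2 : ∑ i, w' i • x i t = 0 := by
      rw [← hsum]; simp only [w', ite_smul, zero_smul]; rw [Finset.sum_ite_mem, Finset.univ_inter]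
    rw [Fin.sum_univ_four] at h1 h2
    have h3 : w' 1 • p0 t + w' 2 • p1 t + w' 3 • p2 t = 0 := by
      have h4 : w' 0 • s t + w' 1 • (p0 t + s t) + w' 2 • (p1 t + s t) + w' 3 • (p2 t + s t)
          = 0 := h2
      have h5 : w' 0 = -(w' 1 + w' 2 + w' 3) := by linarith
      rw [← h4, h5]; module
    obtain ⟨k1, k2, k3⟩ := hli t _ _ _ h3
    have k0 : w' 0 = 0 := by linarith
    have : ∀ i, w' i = 0 := by
      intro i; fin_cases i
      · exact k0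
      · exact k1
      · exact k2
      · exact k3
    simpa [w', he] using this e
  refine ⟨![M, m, m, m], x, ?_, fun i => contDiff_two (dx i) (dx1 i) (cx i), ?_, ?_, ?_, ?_,
    hai, ?_⟩
  · intro i; fin_cases i <;> simpa
  · intro t i j hij h
    exact hij ((hai t).injective h)
  · intro t i
    rw [der1, der2, Finset.sum_erase_eq_sub (Finset.mem_univ _), Fin.sum_univ_four]
    fin_cases i
    · simp [x, x2, hs2]
    · simp [x, x2, hs2, e0]
      module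
    · simp [x, x2, hs2, e1]
      module
    · simp [x, x2, hs2, e2]
      module
  · intro t
    rw [Fin.sum_univ_four]
    simp only [x, s, Matrix.cons_val_zero, Matrix.cons_val_one, Matrix.cons_val]
    match_scalars <;> linear_combination hk'
  · intro t
    simp only [der1, Finset.sum_erase_eq_sub (Finset.mem_univ _), Fin.sum_univ_four]
    simp only [x, x1, Matrix.cons_val_zero, Matrix.cons_val_one, Matrix.cons_val, sub_self,
      norm_zero, div_zero, add_sub_add_right_eq_sub, add_sub_cancel_right, sub_add_cancel_right,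
      norm_neg, norm_sub_rev (p0 t) (p1 t), norm_sub_rev (p0 t) (p2 t),
      norm_sub_rev (p1 t) (p2 t), norm_add_sq_real]
    have h1 : (M + 3 * m) * ‖s1 t‖ ^ 2
        = -m * (inner ℝ (v0 t) (s1 t) + inner ℝ (v1 t) (s1 t) + inner ℝ (v2 t) (s1 t)) := by
      rw [← inner_add_left, ← inner_add_left, ← real_inner_self_eq_norm_sq, ← hk']
      nth_rewrite 1 [show s1 t = k • (v0 t + v1 t + v2 t) from rfl]
      rw [inner_smul_left]
      simp only [conj_trivial]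
      ring
    have h2 := mul_lt_mul_of_pos_left (hen t) hm
    have h3 : 0 ≤ (M + 3 * m) * ‖s1 t‖ ^ 2 := by positivity
    simp only [div_eq_mul_inv] at h2 ⊢
    nlinarith
  · refine ⟨R + 3 * |k| * R, fun i t => ?_⟩
    obtain ⟨r0, r1, r2⟩ := hR t
    have hs : ‖s t‖ ≤ 3 * |k| * R := by
      simp only [s, norm_smul, Real.norm_eq_abs]
      have : ‖p0 t + p1 t + p2 t‖ ≤ 3 * R :=
        (norm_add₃_le).trans (by linarith)
      nlinarith [abs_nonneg k]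
    have hR0 : 0 ≤ R := (norm_nonneg _).trans r0
    fin_cases i
    · exact hs.trans (by linarith)
    · exact (norm_add_le _ _).trans (add_le_add r0 hs)
    · exact (norm_add_le _ _).trans (add_le_add r1 hs)
    · exact (norm_add_le _ _).trans (add_le_add r2 hs)

end Pool.Agent.H113Z.FB
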