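import Pool.Agent.H113Z.FB.Abstract

/-!
Periodic solutions of linear differential equations with constant coefficients.
-/

set_option autoImplicit false

open Topology Filter Complex intervalIntegral

namespace Pool.Agent.H113Z.FB

/-- continuous, of period `tau`, of mean zero -/
structure Zc (g : ℝ → ℂ) : Prop where
  cont : Continuous g
  per : ∀ t, g (t + tau) = g t
  mean : ∫ t in (0 : ℝ)..tau, g t = 0

theorem Zc.add {f g : ℝ → ℂ} (hf : Zc f) (hg : Zc g) : Zc (fun t => f t + g t) :=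
  ⟨hf.cont.add hg.cont, fun t => by rw [hf.per, hg.per], by
    rw [integral_add (hf.cont.intervalIntegrable _ _) (hg.cont.intervalIntegrable _ _),
      hf.mean, hg.mean, add_zero]⟩

theorem Zc.mul {f : ℝ → ℂ} (hf : Zc f) (c : ℂ) : Zc (fun t => c * f t) :=
  ⟨continuous_const.mul hf.cont, fun t => by rw [hf.per], by
    rw [integral_const_mul, hf.mean, mul_zero]⟩

theorem exists_Zc {g : ℝ → ℂ} (hc : Continuous g) (hp : ∀ t, g (t + tau) = g t) :
    ∃ m : ℂ, Zc (fun t => g t - m) := by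
  refine ⟨(∫ t in (0 : ℝ)..tau, g t) / tau, hc.sub continuous_const, fun t => by rw [hp], ?_⟩
  rw [integral_sub (hc.intervalIntegrable _ _) (continuous_const.intervalIntegrable _ _)]
  have : (tau : ℂ) ≠ 0 := by exact_mod_cast tau_pos.ne'
  simp only [integral_const, sub_zero, real_smul]
  field_simp
  ring

/-- non-resonant exponents -/
def Ok (l : ℂ) : Prop := Complex.exp (l * tau) ≠ 1 ∨ l = 0

theorem ok_of (l : ℂ) (h : ∀ n : ℤ, n ≠ 0 → l ≠ 3 * n * I) : Ok l := by
  by_cases h0 : l = 0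
  · exact Or.inr h0
  · left
    intro he
    obtain ⟨n, hn⟩ := Complex.exp_eq_one_iff.1 he
    have hpi : (Real.pi : ℂ) ≠ 0 := by exact_mod_cast Real.pi_pos.ne'
    have hl : l = 3 * n * I := by
      have : (tau : ℂ) = 2 * Real.pi / 3 := by unfold tau; push_cast; ring
      rw [this] at hn
      field_simp at hn
      linear_combination hn
    by_cases hn0 : n = 0
    · apply h0; rw [hl, hn0]; simp
    · exact h n hn0 hl

theorem solve1 (l : ℂ) (hl : Ok l) {g : ℝ → ℂ} (hg : Zc g) :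
    ∃ u : ℝ → ℂ, Zc u ∧ ∀ t, HasDerivAt u (l * u t + g t) t := by
  have hk : Continuous fun r : ℝ => Complex.exp (-(l * r)) * g r := by
    have := hg.cont; fun_prop
  set K : ℝ → ℂ := fun t => ∫ r in (0 : ℝ)..t, Complex.exp (-(l * r)) * g r with hK
  have hKd : ∀ t : ℝ, HasDerivAt K (Complex.exp (-(l * t)) * g t) t := fun t =>
    (hk.integral_hasStrictDerivAt 0 t).hasDerivAt
  have hKp : ∀ t, K (t + tau) = K tau + Complex.exp (-(l * tau)) * K t := by
    intro t
    have h1 : K (t + tau) = K tau + ∫ r in tau..(t + tau), Complex.exp (-(l * r)) * g r := by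
      simp only [hK]
      rw [integral_add_adjacent_intervals (hk.intervalIntegrable _ _) (hk.intervalIntegrable _ _)]
    have h2 : (∫ r in tau..(t + tau), Complex.exp (-(l * r)) * g r)
        = ∫ r in (0 : ℝ)..t, Complex.exp (-(l * ((r + tau : ℝ) : ℂ))) * g (r + tau) := by
      rw [integral_comp_add_right (fun r : ℝ => Complex.exp (-(l * r)) * g r) tau, zero_add]
    rw [h1, h2, hK]
    simp only
    rw [← integral_const_mul]
    congr 1
    refine integral_congr fun r _ => ?_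
    simp only [hg.per]
    rw [← mul_assoc, ← Complex.exp_add]
    push_cast
    congr 2
    ring
  have hd : ∀ (c : ℂ) (t : ℝ), HasDerivAt (fun t : ℝ => Complex.exp (l * t) * (c + K t))
      (l * (Complex.exp (l * t) * (c + K t)) + g t) t := by
    intro c t
    have h1 : HasDerivAt (fun t : ℝ => Complex.exp (l * t)) (Complex.exp (l * t) * l) t := by
      have : HasDerivAt (fun t : ℝ => l * (t : ℂ)) l t := by
        simpa using (Complex.ofRealCLM.hasDerivAt (x := t)).const_mul l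
      exact this.cexp
    have h2 := h1.mul ((hKd t).const_add c)
    refine h2.congr_deriv ?_
    have : Complex.exp (l * t) * Complex.exp (-(l * t)) = 1 := by
      rw [← Complex.exp_add]; simp
    linear_combination (g t) * this
  have hE : Complex.exp (l * tau) * Complex.exp (-(l * tau)) = 1 := by
    rw [← Complex.exp_add]; simp
  have hper : ∀ c : ℂ, Complex.exp (l * tau) * (c + K tau) = c → ∀ t : ℝ,
      Complex.exp (l * ((t + tau : ℝ) : ℂ)) * (c + K (t + tau))
        = Complex.exp (l * t) * (c + K t) := by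
    intro c hc t
    rw [hKp]
    have : Complex.exp (l * ((t + tau : ℝ) : ℂ))
        = Complex.exp (l * t) * Complex.exp (l * tau) := by
      rw [← Complex.exp_add]; push_cast; congr 1; ring
    rw [this]
    linear_combination (Complex.exp (l * t)) * hc + (Complex.exp (l * t) * K t) * hE
  by_cases h0 : l = 0
  · subst h0
    have hK0 : K tau = 0 := by simpa [hK] using hg.mean
    have hp := hper 0 (by simp [hK0])
    have hcont : Continuous fun t : ℝ => Complex.exp (0 * t) * (0 + K t) :=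
      continuous_iff_continuousAt.2 fun t => (hd 0 t).continuousAt
    obtain ⟨m, hm⟩ := exists_Zc hcont hp
    refine ⟨_, hm, fun t => ?_⟩
    simpa using (hd 0 t).sub_const m
  · have hne : Complex.exp (l * tau) ≠ 1 := hl.resolve_right h0
    have hne' : 1 - Complex.exp (l * tau) ≠ 0 := sub_ne_zero.2 hne.symm
    set c : ℂ := Complex.exp (l * tau) * K tau / (1 - Complex.exp (l * tau)) with hc
    have hp := hper c (by rw [hc]; field_simp; ring)
    have hcont : Continuous fun t : ℝ => Complex.exp (l * t) * (c + K t) :=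
      continuous_iff_continuousAt.2 fun t => (hd c t).continuousAt
    refine ⟨_, ⟨hcont, hp, ?_⟩, hd c⟩
    have hcont2 : Continuous fun t : ℝ => l * (Complex.exp (l * t) * (c + K t)) :=
      continuous_const.mul hcont
    have hint := integral_eq_sub_of_hasDerivAt (a := 0) (b := tau) (fun t _ => hd c t)
      ((hcont2.add hg.cont).intervalIntegrable _ _)
    have hp0 := hp 0
    rw [zero_add] at hp0
    rw [hp0, sub_self, integral_add (hcont2.intervalIntegrable _ _)
      (hg.cont.intervalIntegrable _ _), hg.mean, add_zero, integral_const_mul] at hint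
    exact (mul_eq_zero.1 hint).resolve_left h0

theorem solve2 (l1 l2 : ℂ) (h1 : Ok l1) (h2 : Ok l2) {g : ℝ → ℂ} (hg : Zc g) :
    ∃ u u1 : ℝ → ℂ, Zc u ∧ Zc u1 ∧ (∀ t, HasDerivAt u (u1 t) t) ∧
      ∀ t, HasDerivAt u1 ((l1 + l2) * u1 t - l1 * l2 * u t + g t) t := by
  obtain ⟨y, hy, hyd⟩ := solve1 l1 h1 hg
  obtain ⟨u, hu, hud⟩ := solve1 l2 h2 hy
  refine ⟨u, fun t => l2 * u t + y t, hu, (hu.mul l2).add hy, hud, fun t => ?_⟩
  exact (((hud t).const_mul l2).add (hyd t)).congr_deriv (by ring)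

theorem solve3 (l1 l2 l3 : ℂ) (h1 : Ok l1) (h2 : Ok l2) (h3 : Ok l3) {g : ℝ → ℂ} (hg : Zc g) :
    ∃ u u1 u2 : ℝ → ℂ, Zc u ∧ Zc u1 ∧ Zc u2 ∧ (∀ t, HasDerivAt u (u1 t) t) ∧
      (∀ t, HasDerivAt u1 (u2 t) t) ∧
      ∀ t, HasDerivAt u2 ((l1 + l2 + l3) * u2 t - (l1 * l2 + l1 * l3 + l2 * l3) * u1 t
        + l1 * l2 * l3 * u t + g t) t := by
  obtain ⟨y, y1, hy, hy1, hyd, hy1d⟩ := solve2 l1 l2 h1 h2 hg
  obtain ⟨u, hu, hud⟩ := solve1 l3 h3 hy
  have hu1 : ∀ t, HasDerivAt (fun t => l3 * u t + y t) (l3 * (l3 * u t + y t) + y1 t) t :=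
    fun t => ((hud t).const_mul l3).add (hyd t)
  refine ⟨u, fun t => l3 * u t + y t, fun t => l3 * (l3 * u t + y t) + y1 t, hu,
    (hu.mul l3).add hy, (((hu.mul l3).add hy).mul l3).add hy1, hud, hu1, fun t => ?_⟩
  exact (((hu1 t).const_mul l3).add (hy1d t)).congr_deriv (by ring)

theorem exists_roots (K : ℝ) (hK : 6 < K) :
    ∃ l1 l2 l3 : ℂ, Ok l1 ∧ Ok l2 ∧ Ok l3 ∧ l1 + l2 + l3 = 4 * I ∧
      l1 * l2 + l1 * l3 + l2 * l3 = -K ∧ l1 * l2 * l3 = -2 * I := by
  have key : ∀ l : ℂ, l ^ 3 - 4 * I * l ^ 2 - K * l + 2 * I = 0 → Ok l := by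
    intro l hl
    refine ok_of l fun n _ hn => ?_
    rw [hn] at hl
    have h2 : (((3 * n : ℝ) ^ 3 - 4 * (3 * n : ℝ) ^ 2 + K * (3 * n) - 2 : ℝ) : ℂ) = 0 := by
      push_cast
      have hI : I * I = -1 := I_mul_I
      linear_combination (I) * hl
        + (-(27 * (n : ℂ) ^ 3) * (I * I - 1) + 36 * (n : ℂ) ^ 2 * (I * I - 1) + K * 3 * n - 2) * hI
    have h3 : (3 * n : ℝ) ^ 3 - 4 * (3 * n : ℝ) ^ 2 + K * (3 * n) - 2 = 0 := by exact_mod_cast h2
    rcases le_or_gt n 0 with hn0 | hn0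
    · have : (n : ℝ) ≤ 0 := by exact_mod_cast hn0
      nlinarith [sq_nonneg (n : ℝ), mul_nonneg (sq_nonneg (n : ℝ)) (neg_nonneg.2 this)]
    · have : (1 : ℝ) ≤ n := by exact_mod_cast hn0
      nlinarith [sq_nonneg ((n : ℝ) - 1), mul_nonneg (sq_nonneg (n : ℝ)) (sub_nonneg.2 this),
        mul_nonneg (sub_nonneg.2 this) (sub_nonneg.2 this)]
  obtain ⟨l1, hl1⟩ : ∃ l : ℂ, l ^ 3 - 4 * I * l ^ 2 - K * l + 2 * I = 0 := by
    have hdeg : (Polynomial.X ^ 3 - Polynomial.C (4 * I) * Polynomial.X ^ 2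
        - Polynomial.C (K : ℂ) * Polynomial.X + Polynomial.C (2 * I) : Polynomial ℂ).degree = 3 := by
      compute_degree!
    obtain ⟨l, hl⟩ := IsAlgClosed.exists_root _ (by rw [hdeg]; decide)
    exact ⟨l, by simpa using hl⟩
  obtain ⟨d, hd⟩ := IsAlgClosed.exists_eq_mul_self
    ((l1 - 4 * I) ^ 2 - 4 * (l1 ^ 2 - 4 * I * l1 - K))
  have s1 : l1 + (4 * I - l1 + d) / 2 + (4 * I - l1 - d) / 2 = 4 * I := by ring
  have s2 : l1 * ((4 * I - l1 + d) / 2) + l1 * ((4 * I - l1 - d) / 2)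
      + ((4 * I - l1 + d) / 2) * ((4 * I - l1 - d) / 2) = -K := by
    linear_combination (1 / 4 : ℂ) * hd
  have s3 : l1 * ((4 * I - l1 + d) / 2) * ((4 * I - l1 - d) / 2) = -2 * I := by
    linear_combination (l1 / 4) * hd + hl1
  refine ⟨l1, (4 * I - l1 + d) / 2, (4 * I - l1 - d) / 2, key _ hl1, key _ ?_, key _ ?_,
    s1, s2, s3⟩
  · set a := (4 * I - l1 + d) / 2
    set b := (4 * I - l1 - d) / 2
    linear_combination (a ^ 2) * s1 - a * s2 + s3
  · set a := (4 * I - l1 + d) / 2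
    set b := (4 * I - l1 - d) / 2
    linear_combination (b ^ 2) * s1 - b * s2 + s3

end Pool.Agent.H113Z.FB
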