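import Pool.Agent.H113Z.FB.Lin1

/-!
The four linear systems met in the linearisation, solved in functions of period `tau`.
-/

set_option autoImplicit false

open Topology Filter Complex

namespace Pool.Agent.H113Z.FB

/-- a real function of period `tau` with its first two derivatives -/
structure RJ (f f1 f2 : ℝ → ℝ) : Prop where
  d1 : ∀ t, HasDerivAt f (f1 t) t
  d2 : ∀ t, HasDerivAt f1 (f2 t) t
  c2 : Continuous f2
  per : ∀ t, f (t + tau) = f t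

/-- a complex function of period `tau` with its first two derivatives -/
structure CJ (f f1 f2 : ℝ → ℂ) : Prop where
  d1 : ∀ t, HasDerivAt f (f1 t) t
  d2 : ∀ t, HasDerivAt f1 (f2 t) t
  c2 : Continuous f2
  per : ∀ t, f (t + tau) = f t

theorem CJ.re {f f1 f2 : ℝ → ℂ} (h : CJ f f1 f2) :
    RJ (fun t => (f t).re) (fun t => (f1 t).re) (fun t => (f2 t).re) :=
  ⟨fun t => reCLM.hasFDerivAt.comp_hasDerivAt t (h.d1 t),
   fun t => reCLM.hasFDerivAt.comp_hasDerivAt t (h.d2 t),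
   continuous_re.comp h.c2, fun t => by rw [h.per]⟩

theorem CJ.im {f f1 f2 : ℝ → ℂ} (h : CJ f f1 f2) :
    RJ (fun t => (f t).im) (fun t => (f1 t).im) (fun t => (f2 t).im) :=
  ⟨fun t => imCLM.hasFDerivAt.comp_hasDerivAt t (h.d1 t),
   fun t => imCLM.hasFDerivAt.comp_hasDerivAt t (h.d2 t),
   continuous_im.comp h.c2, fun t => by rw [h.per]⟩

theorem ok_zero : Ok 0 := Or.inr rfl

theorem ok_small (r : ℝ) (h : r ^ 2 < 9) : Ok (r * I) := by
  refine ok_of _ fun n hn he => ?_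
  have h1 : (r : ℂ) = 3 * n := mul_right_cancel₀ I_ne_zero he
  have h2 : r = 3 * n := by exact_mod_cast h1
  have h3 : (1 : ℤ) ≤ n ^ 2 := by
    rcases lt_or_gt_of_ne hn with h | h <;> nlinarith
  have h4 : (1 : ℝ) ≤ (n : ℝ) ^ 2 := by exact_mod_cast h3
  rw [h2] at h
  nlinarith

theorem solve_eta (n : ℝ) (h1 : 0 < n) (h2 : n < 9) (g : ℝ → ℝ) (hc : Continuous g)
    (hp : ∀ t, g (t + tau) = g t) :
    ∃ y y1 y2 : ℝ → ℝ, RJ y y1 y2 ∧ ∀ t, y2 t + n * y t = g t := by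
  obtain ⟨m, hm⟩ := exists_Zc (g := fun t => (g t : ℂ)) (by fun_prop) (fun t => by rw [hp])
  have hs : Real.sqrt n ^ 2 = n := Real.sq_sqrt h1.le
  have o1 : Ok ((Real.sqrt n : ℝ) * I) := ok_small _ (by rw [hs]; exact h2)
  have o2 : Ok (((-Real.sqrt n : ℝ) : ℂ) * I) := ok_small _ (by rw [neg_sq, hs]; exact h2)
  obtain ⟨u, u1, hu, hu1, d1, d2⟩ := solve2 _ _ o1 o2 hm
  have hsc : (Real.sqrt n : ℂ) ^ 2 = n := by exact_mod_cast hs
  have hn : (n : ℂ) ≠ 0 := by exact_mod_cast h1.ne'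
  have hJ : CJ (fun t => u t + m / n) u1 (fun t => g t - n * (u t + m / n)) := by
    refine ⟨fun t => (d1 t).add_const _, fun t => (d2 t).congr_deriv ?_, ?_,
      fun t => by rw [hu.per]⟩
    · have hI : I * I = -1 := I_mul_I
      have : (n : ℂ) * (m / n) = m := by field_simp
      push_cast
      linear_combination (u t * (Real.sqrt n : ℂ) ^ 2) * hI - (u t) * hsc + this
    · have := hu.cont; fun_prop
  refine ⟨_, _, _, hJ.re, fun t => ?_⟩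
  simp

theorem solve_zeta (gr gi : ℝ → ℝ) (hcr : Continuous gr) (hci : Continuous gi)
    (hpr : ∀ t, gr (t + tau) = gr t) (hpi : ∀ t, gi (t + tau) = gi t) :
    ∃ (p p1 p2 q q1 q2 : ℝ → ℝ) (mr mi : ℝ), RJ p p1 p2 ∧ RJ q q1 q2 ∧
      ∀ t, p2 t - 2 * q1 t = gr t - mr ∧ q2 t + 2 * p1 t = gi t - mi := by
  obtain ⟨m, hm⟩ := exists_Zc (g := fun t => (gr t : ℂ) + gi t * I) (by fun_prop)
    (fun t => by rw [hpr, hpi])
  have o2 : Ok (((-2 : ℝ) : ℂ) * I) := ok_small _ (by norm_num)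
  obtain ⟨u, u1, hu, hu1, d1, d2⟩ := solve2 _ _ ok_zero o2 hm
  have hJ : CJ u u1 (fun t => (gr t : ℂ) + gi t * I - m - 2 * I * u1 t) := by
    refine ⟨d1, fun t => (d2 t).congr_deriv ?_, ?_, hu.per⟩
    · push_cast; ring
    · have := hu1.cont; fun_prop
  refine ⟨_, _, _, _, _, _, m.re, m.im, hJ.re, hJ.im, fun t => ⟨?_, ?_⟩⟩
  · simp
  · simp

theorem solve_kepler (g1 g2 : ℝ → ℝ) (hc1 : Continuous g1) (hc2 : Continuous g2)
    (hp1 : ∀ t, g1 (t + tau) = g1 t) (hp2 : ∀ t, g2 (t + tau) = g2 t) :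
    ∃ (a a1 a2 b b1 b2 : ℝ → ℝ) (m : ℝ), RJ a a1 a2 ∧ RJ b b1 b2 ∧
      ∀ t, a2 t - 2 * b1 t - 3 * a t = g1 t ∧ b2 t + 2 * a1 t = g2 t - m := by
  obtain ⟨m1, hm1⟩ := exists_Zc (g := fun t => (g1 t : ℂ)) (by fun_prop) (fun t => by rw [hp1])
  obtain ⟨m2, hm2⟩ := exists_Zc (g := fun t => (g2 t : ℂ)) (by fun_prop) (fun t => by rw [hp2])
  obtain ⟨G, hG, dG⟩ := solve1 0 ok_zero hm2
  have o1 : Ok (((1 : ℝ) : ℂ) * I) := ok_small _ (by norm_num)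
  have o2 : Ok (((-1 : ℝ) : ℂ) * I) := ok_small _ (by norm_num)
  obtain ⟨a, a1, ha, ha1, d1, d2⟩ := solve2 _ _ o1 o2 (hm1.add (hG.mul 2))
  obtain ⟨b, hb, db⟩ := solve1 0 ok_zero (hG.add (ha.mul (-2)))
  have hA : CJ (fun t => a t - m1 / 3) a1 (fun t => (g1 t : ℂ) - m1 + 2 * G t - a t) := by
    refine ⟨fun t => (d1 t).sub_const _, fun t => (d2 t).congr_deriv ?_, ?_,
      fun t => by rw [ha.per]⟩
    · have hI : I * I = -1 := I_mul_I
      push_cast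
      linear_combination (a t) * hI
    · have := hG.cont; have := ha.cont; fun_prop
  have hB : CJ b (fun t => G t + (-2) * a t) (fun t => (g2 t : ℂ) - m2 + (-2) * a1 t) := by
    refine ⟨fun t => (db t).congr_deriv (by ring),
      fun t => ((dG t).add ((d1 t).const_mul (-2))).congr_deriv (by ring), ?_, hb.per⟩
    have := ha1.cont; fun_prop
  refine ⟨_, _, _, _, _, _, m2.re, hA.re, hB.re, fun t => ⟨?_, ?_⟩⟩
  · simp; ring
  · simp

theorem solve_quartic_c (M n k1 k2 : ℝ) (hres : 8 + n = 9 * M * n) (hn : 3 < n)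
    (hk : 3 * n * k1 - k2 ≠ 0) (f1 f2 : ℝ → ℂ) (hc1 : Continuous f1) (hc2 : Continuous f2)
    (hp1 : ∀ t, f1 (t + tau) = f1 t) (hp2 : ∀ t, f2 (t + tau) = f2 t) :
    ∃ (α α1 α2 γ γ1 γ2 : ℝ → ℂ) (c : ℂ), CJ α α1 α2 ∧ CJ γ γ1 γ2 ∧
      ∀ t, α2 t = f1 t + α t / 2 + 3 / 2 * M * γ t - c * k1 ∧
        γ2 t = f2 t + 4 * I * γ1 t + (4 + n / 2) * γ t + 3 / 2 * n * α t - c * k2 := by
  obtain ⟨m1, hm1⟩ := exists_Zc hc1 hp1
  obtain ⟨m2, hm2⟩ := exists_Zc hc2 hp2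
  obtain ⟨l1, l2, l3, o1, o2, o3, s1, s2, s3⟩ := exists_roots (9 / 2 + n / 2) (by linarith)
  obtain ⟨y, y1, y2, hy, hy1, hy2, dy, dy1, dy2⟩ :=
    solve3 l1 l2 l3 o1 o2 o3 (hm1.add (hm2.mul (3 * M)))
  obtain ⟨w, w1, w2, hw, hw1, hw2, dw, dw1, dw2⟩ := solve3 l1 l2 l3 o1 o2 o3 hm2
  rw [s1, s2, s3] at dy2 dw2
  have hψ : Zc (fun t => (3 / 2 * n : ℂ) * y t + w2 t + (-(9 / 2 + n / 2) : ℂ) * w t) :=
    ((hy.mul _).add hw2).add (hw.mul _)
  obtain ⟨γ, hγ, dγ⟩ := solve1 0 ok_zero hψ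
  have hresc : (8 : ℂ) + n = 9 * M * n := by exact_mod_cast hres
  have hkc : (3 : ℂ) * n * k1 - k2 ≠ 0 := by exact_mod_cast hk
  have hI : I * I = -1 := I_mul_I
  set c : ℂ := (3 * n * m1 - m2) / (3 * n * k1 - k2) with hc
  have hc' : c * (3 * n * k1 - k2) = 3 * n * m1 - m2 := by rw [hc]; field_simp
  refine ⟨fun t => y1 t - 4 * I * y t + 12 * I * M * w t - 3 * M * γ t + 2 * (c * k1 - m1),
    fun t => y2 t - 4 * I * y1 t + 12 * I * M * w1 t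
      - 3 * M * ((3 / 2 * n : ℂ) * y t + w2 t + (-(9 / 2 + n / 2) : ℂ) * w t),
    fun t => f1 t + (y1 t - 4 * I * y t + 12 * I * M * w t - 3 * M * γ t + 2 * (c * k1 - m1)) / 2
      + 3 / 2 * M * γ t - c * k1,
    γ, fun t => (3 / 2 * n : ℂ) * y t + w2 t + (-(9 / 2 + n / 2) : ℂ) * w t,
    fun t => f2 t + 4 * I * ((3 / 2 * n : ℂ) * y t + w2 t + (-(9 / 2 + n / 2) : ℂ) * w t)
      + (4 + n / 2) * γ t
      + 3 / 2 * n * (y1 t - 4 * I * y t + 12 * I * M * w t - 3 * M * γ t + 2 * (c * k1 - m1))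
      - c * k2, c, ⟨fun t => ?_, fun t => ?_, ?_, fun t => ?_⟩,
      ⟨fun t => (dγ t).congr_deriv (by ring), fun t => ?_, ?_, hγ.per⟩, fun t => ⟨rfl, rfl⟩⟩
  · exact (((((dy1 t).sub ((dy t).const_mul (4 * I))).add ((dw t).const_mul (12 * I * M))).sub
      ((dγ t).const_mul (3 * M : ℂ))).add_const _).congr_deriv (by ring)
  · refine ((((dy2 t).sub ((dy1 t).const_mul (4 * I))).add ((dw1 t).const_mul (12 * I * M))).sub
      (((((dy t).const_mul (3 / 2 * n : ℂ)).add (dw2 t)).add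
        ((dw t).const_mul (-(9 / 2 + n / 2) : ℂ))).const_mul (3 * M : ℂ))).congr_deriv ?_
    push_cast
    linear_combination (y1 t / 2) * hresc
  · have := hy.cont; have := hy1.cont; have := hw.cont; have := hγ.cont; fun_prop
  · rw [hy1.per, hy.per, hw.per, hγ.per]
  · refine ((((dy t).const_mul (3 / 2 * n : ℂ)).add (dw2 t)).add
        ((dw t).const_mul (-(9 / 2 + n / 2) : ℂ))).congr_deriv ?_
    push_cast
    linear_combination (-(γ t) / 2 + 2 * I * w t) * hresc - hc'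
  · have := hy.cont; have := hy1.cont; have := hw.cont; have := hγ.cont; have := hw2.cont
    fun_prop

theorem solve_quartic (M n k1 k2 : ℝ) (hres : 8 + n = 9 * M * n) (hn : 3 < n)
    (hk : 3 * n * k1 - k2 ≠ 0) (f1r f1i f2r f2i : ℝ → ℝ) (c1 : Continuous f1r)
    (c2 : Continuous f1i) (c3 : Continuous f2r) (c4 : Continuous f2i)
    (p1 : ∀ t, f1r (t + tau) = f1r t) (p2 : ∀ t, f1i (t + tau) = f1i t)
    (p3 : ∀ t, f2r (t + tau) = f2r t) (p4 : ∀ t, f2i (t + tau) = f2i t) :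
    ∃ (p p1 p2 q q1 q2 r r1 r2 s s1 s2 : ℝ → ℝ) (cr ci : ℝ),
      RJ p p1 p2 ∧ RJ q q1 q2 ∧ RJ r r1 r2 ∧ RJ s s1 s2 ∧
      ∀ t, p2 t = f1r t + p t / 2 + 3 / 2 * M * r t - cr * k1 ∧
        q2 t = f1i t + q t / 2 + 3 / 2 * M * s t - ci * k1 ∧
        r2 t = f2r t - 4 * s1 t + (4 + n / 2) * r t + 3 / 2 * n * p t - cr * k2 ∧
        s2 t = f2i t + 4 * r1 t + (4 + n / 2) * s t + 3 / 2 * n * q t - ci * k2 := by
  obtain ⟨α, α1, α2, γ, γ1, γ2, c, hα, hγ, h⟩ := solve_quartic_c M n k1 k2 hres hn hk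
    (fun t => (f1r t : ℂ) + f1i t * I) (fun t => (f2r t : ℂ) + f2i t * I) (by fun_prop)
    (by fun_prop) (fun t => by rw [p1, p2]) (fun t => by rw [p3, p4])
  refine ⟨_, _, _, _, _, _, _, _, _, _, _, _, c.re, c.im, hα.re, hα.im, hγ.re, hγ.im,
    fun t => ⟨?_, ?_, ?_, ?_⟩⟩
  · simp [(h t).1]
  · simp [(h t).1]
  · simp [(h t).2]; ring
  · simp [(h t).2]

end Pool.Agent.H113Z.FB
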