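import Pool.Agent.H113Z.FB.Lin2
import Pool.Agent.H113Z.FB.Defs

/-!
Solving the linearised planar and vertical equations in the symmetric classes.
-/

set_option autoImplicit false

open Topology Filter Real

namespace Pool.Agent.H113Z.FB

theorem cos_tau : cos tau = -1 / 2 := by
  have : tau = π - π / 3 := by unfold tau; ring
  rw [this, cos_pi_sub, cos_pi_div_three]; ring

theorem sin_tau : sin tau = rt / 2 := by
  have : tau = π - π / 3 := by unfold tau; ring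
  rw [this, sin_pi_sub, sin_pi_div_three]; rfl

theorem cos_p (t : ℝ) : cos (t + tau) = -1 / 2 * cos t - rt / 2 * sin t := by
  rw [cos_add, cos_tau, sin_tau]; ring
theorem sin_p (t : ℝ) : sin (t + tau) = -1 / 2 * sin t + rt / 2 * cos t := by
  rw [sin_add, cos_tau, sin_tau]; ring
theorem cos_m (t : ℝ) : cos (t - tau) = -1 / 2 * cos t + rt / 2 * sin t := by
  rw [cos_sub, cos_tau, sin_tau]; ring
theorem sin_m (t : ℝ) : sin (t - tau) = -1 / 2 * sin t - rt / 2 * cos t := by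
  rw [sin_sub, cos_tau, sin_tau]; ring

theorem np (t : ℝ) : -(t + tau) = -t - tau := by ring
theorem nm (t : ℝ) : -(t - tau) = -t + tau := by ring

/-- a real function of period a full turn with its first two derivatives -/
structure TJ (f f1 f2 : ℝ → ℝ) : Prop where
  d1 : ∀ t, HasDerivAt f (f1 t) t
  d2 : ∀ t, HasDerivAt f1 (f2 t) t
  c2 : Continuous f2
  per : ∀ t, f (t + 2 * π) = f t

theorem RJ.add {f f1 f2 g g1 g2 : ℝ → ℝ} (hf : RJ f f1 f2) (hg : RJ g g1 g2) :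
    RJ (fun t => f t + g t) (fun t => f1 t + g1 t) (fun t => f2 t + g2 t) :=
  ⟨fun t => (hf.d1 t).add (hg.d1 t), fun t => (hf.d2 t).add (hg.d2 t), hf.c2.add hg.c2,
    fun t => by rw [hf.per, hg.per]⟩

theorem RJ.sub {f f1 f2 g g1 g2 : ℝ → ℝ} (hf : RJ f f1 f2) (hg : RJ g g1 g2) :
    RJ (fun t => f t - g t) (fun t => f1 t - g1 t) (fun t => f2 t - g2 t) :=
  ⟨fun t => (hf.d1 t).sub (hg.d1 t), fun t => (hf.d2 t).sub (hg.d2 t), hf.c2.sub hg.c2,
    fun t => by rw [hf.per, hg.per]⟩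

theorem RJ.mul {f f1 f2 : ℝ → ℝ} (hf : RJ f f1 f2) (c : ℝ) :
    RJ (fun t => c * f t) (fun t => c * f1 t) (fun t => c * f2 t) :=
  ⟨fun t => (hf.d1 t).const_mul c, fun t => (hf.d2 t).const_mul c, continuous_const.mul hf.c2,
    fun t => by rw [hf.per]⟩

theorem RJ.zero : RJ (fun _ => 0) (fun _ => 0) (fun _ => 0) :=
  ⟨fun t => hasDerivAt_const t 0, fun t => hasDerivAt_const t 0, continuous_const, fun _ => rfl⟩

theorem RJ.c0 {f f1 f2 : ℝ → ℝ} (hf : RJ f f1 f2) : Continuous f :=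
  continuous_iff_continuousAt.2 fun t => (hf.d1 t).continuousAt
theorem RJ.c1 {f f1 f2 : ℝ → ℝ} (hf : RJ f f1 f2) : Continuous f1 :=
  continuous_iff_continuousAt.2 fun t => (hf.d2 t).continuousAt
theorem TJ.c0 {f f1 f2 : ℝ → ℝ} (hf : TJ f f1 f2) : Continuous f :=
  continuous_iff_continuousAt.2 fun t => (hf.d1 t).continuousAt
theorem TJ.c1 {f f1 f2 : ℝ → ℝ} (hf : TJ f f1 f2) : Continuous f1 :=
  continuous_iff_continuousAt.2 fun t => (hf.d2 t).continuousAt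

theorem RJ.toTJ {f f1 f2 : ℝ → ℝ} (hf : RJ f f1 f2) : TJ f f1 f2 :=
  ⟨hf.d1, hf.d2, hf.c2, per1_T hf.per⟩

theorem trig_jet {u u1 u2 v v1 v2 w w1 w2 : ℝ → ℝ} (hu : RJ u u1 u2) (hv : RJ v v1 v2)
    (hw : RJ w w1 w2) :
    TJ (fun t => u t + cos t * v t + sin t * w t)
      (fun t => u1 t + cos t * (v1 t + w t) + sin t * (w1 t - v t))
      (fun t => u2 t + cos t * (v2 t + 2 * w1 t - v t) + sin t * (w2 t - 2 * v1 t - w t)) := by
  refine ⟨fun t => ?_, fun t => ?_, ?_, fun t => ?_⟩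
  · exact (((hu.d1 t).add ((hasDerivAt_cos t).mul (hv.d1 t))).add
      ((hasDerivAt_sin t).mul (hw.d1 t))).congr_deriv (by ring)
  · exact (((hu.d2 t).add ((hasDerivAt_cos t).mul ((hv.d2 t).add (hw.d1 t)))).add
      ((hasDerivAt_sin t).mul ((hw.d2 t).sub (hv.d1 t)))).congr_deriv (by simp; ring)
  · have := hu.c2; have := hv.c2; have := hw.c2; have := hv.c1; have := hw.c1
    have := hv.c0; have := hw.c0
    fun_prop
  · rw [per1_T hu.per, per1_T hv.per, per1_T hw.per, cos_add_two_pi, sin_add_two_pi]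

theorem TJ.even {f f1 f2 : ℝ → ℝ} (hf : TJ f f1 f2) :
    TJ (fun t => (f t + f (-t)) / 2) (fun t => (f1 t - f1 (-t)) / 2)
      (fun t => (f2 t + f2 (-t)) / 2) := by
  refine ⟨fun t => ?_, fun t => ?_, ?_, fun t => ?_⟩
  · exact (((hf.d1 t).add (hasDerivAt_refl hf.d1 t)).div_const 2).congr_deriv (by ring)
  · exact (((hf.d2 t).sub (hasDerivAt_refl hf.d2 t)).div_const 2).congr_deriv (by ring)
  · have := hf.c2; fun_prop
  · rw [hf.per, ← hf.per (-(t + 2 * π))]; congr 3; ring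

theorem TJ.odd {f f1 f2 : ℝ → ℝ} (hf : TJ f f1 f2) :
    TJ (fun t => (f t - f (-t)) / 2) (fun t => (f1 t + f1 (-t)) / 2)
      (fun t => (f2 t - f2 (-t)) / 2) := by
  refine ⟨fun t => ?_, fun t => ?_, ?_, fun t => ?_⟩
  · exact (((hf.d1 t).sub (hasDerivAt_refl hf.d1 t)).div_const 2).congr_deriv (by ring)
  · exact (((hf.d2 t).add (hasDerivAt_refl hf.d2 t)).div_const 2).congr_deriv (by ring)
  · have := hf.c2; fun_prop
  · rw [hf.per, ← hf.per (-(t + 2 * π))]; congr 3; ring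

theorem TJ.exists_B {f f1 f2 : ℝ → ℝ} (hf : TJ f f1 f2) :
    ∃ g g1 g2 : B, (∀ t, g t = f t) ∧ (∀ t, g1 t = f1 t) ∧ (∀ t, g2 t = f2 t) ∧
      (∀ t, HasDerivAt g (g1 t) t) ∧ (∀ t, HasDerivAt g1 (g2 t) t) := by
  have p1 := deriv_shift hf.d1 _ hf.per
  have p2 := deriv_shift hf.d2 _ p1
  obtain ⟨g, hg⟩ := Pool.Agent.H113Z.FB.exists_B f hf.c0 hf.per
  obtain ⟨g1, hg1⟩ := Pool.Agent.H113Z.FB.exists_B f1 hf.c1 p1
  obtain ⟨g2, hg2⟩ := Pool.Agent.H113Z.FB.exists_B f2 hf.c2 p2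
  have e : (g : ℝ → ℝ) = f := funext hg
  have e1 : (g1 : ℝ → ℝ) = f1 := funext hg1
  have e2 : (g2 : ℝ → ℝ) = f2 := funext hg2
  refine ⟨g, g1, g2, hg, hg1, hg2, fun t => ?_, fun t => ?_⟩
  · rw [e, e1]; exact hf.d1 t
  · rw [e1, e2]; exact hf.d2 t

/-- average over the three shifts -/
noncomputable def Av (f : ℝ → ℝ) (t : ℝ) : ℝ := (f t + f (t + tau) + f (t - tau)) / 3

theorem Av_cont {f : ℝ → ℝ} (hf : Continuous f) : Continuous (Av f) := by
  unfold Av; fun_prop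

theorem Av_per {f : ℝ → ℝ} (hp : ∀ t, f (t + 2 * π) = f t) (t : ℝ) :
    Av f (t + tau) = Av f t := by
  unfold Av
  rw [per_pp hp, add_sub_cancel_right]; ring

theorem eta_solve (n : ℝ) (h1 : 0 < n) (h2 : n < 9) (g : ℝ → ℝ) (hc : Continuous g)
    (hp : ∀ t, g (t + tau) = g t) (he : ∀ t, g (-t) = g t) :
    ∃ y y1 y2 : ℝ → ℝ, TJ y y1 y2 ∧ (∀ t, y (t + tau) = y t) ∧ (∀ t, y (-t) = y t) ∧
      ∀ t, y2 t + n * y t = g t := by
  obtain ⟨y, y1, y2, hy, h⟩ := solve_eta n h1 h2 g hc hp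
  refine ⟨_, _, _, hy.toTJ.even, fun t => ?_, fun t => ?_, fun t => ?_⟩
  · simp only [np, hy.per, per1_m hy.per]
  · simp only [neg_neg]; ring
  · linear_combination (h t + h (-t) + he t) / 2

theorem zeta_solve (g : ℝ → ℝ) (hc : Continuous g) (hp : ∀ t, g (t + 2 * π) = g t)
    (he : ∀ t, g (-t) = g t) (hs : ∀ t, g t + g (t + tau) + g (t - tau) = 0) :
    ∃ (z z1 z2 : ℝ → ℝ) (c : ℝ), TJ z z1 z2 ∧ (∀ t, z (-t) = z t) ∧
      (∀ t, z t + z (t + tau) + z (t - tau) = 0) ∧ ∀ t, z2 t + z t - 2 * c * cos t = g t := by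
  obtain ⟨p, p1, p2, q, q1, q2, mr, mi, hP, hQ, h⟩ := solve_zeta
    (Av fun t => cos t * g t) (Av fun t => -(sin t * g t)) (Av_cont (by fun_prop))
    (Av_cont (by fun_prop)) (Av_per fun t => by rw [hp, cos_add_two_pi])
    (Av_per fun t => by rw [hp, sin_add_two_pi])
  have hJ := trig_jet RJ.zero (hP.mul 2) (hQ.mul (-2))
  have hsum : ∀ t, (0 + cos t * (2 * p t) + sin t * (-2 * q t))
      + (0 + cos (t + tau) * (2 * p (t + tau)) + sin (t + tau) * (-2 * q (t + tau)))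
      + (0 + cos (t - tau) * (2 * p (t - tau)) + sin (t - tau) * (-2 * q (t - tau))) = 0 := by
    intro t
    rw [hP.per, hQ.per, per1_m hP.per, per1_m hQ.per, cos_p, cos_m, sin_p, sin_m]; ring
  have heq : ∀ t, (0 + cos t * (2 * p2 t + 2 * (-2 * q1 t) - 2 * p t)
      + sin t * (-2 * q2 t - 2 * (2 * p1 t) - -2 * q t))
      + (0 + cos t * (2 * p t) + sin t * (-2 * q t))
      = g t - 2 * mr * cos t + 2 * mi * sin t := by
    intro t
    obtain ⟨e1, e2⟩ := h t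
    simp only [Av, cos_p, cos_m, sin_p, sin_m] at e1 e2
    linear_combination (2 * cos t) * e1 - (2 * sin t) * e2
      + (2 / 3 * g t - g (t + tau) / 3 - g (t - tau) / 3) * cos_sq_add_sin_sq t - hs t / 3
  refine ⟨_, _, _, -mr, hJ.even, fun t => ?_, fun t => ?_, fun t => ?_⟩
  · simp only [neg_neg]; ring
  · have e1 := hsum t
    have e2 := hsum (-t)
    simp only [np, nm]
    linear_combination (e1 + e2) / 2
  · have e1 := heq t
    have e2 := heq (-t)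
    rw [he, cos_neg, sin_neg] at e2
    simp only [cos_neg, sin_neg]
    linear_combination (e1 + e2) / 2

/-- linearised inverse mutual distance -/
noncomputable def chi (a b : ℝ → ℝ) (t : ℝ) : ℝ :=
  -(rt / 3) * (rt / 2 * a (t - tau) - 1 / 2 * b (t - tau)
    - (-rt / 2 * a (t + tau) - 1 / 2 * b (t + tau)))

/-- linearised planar operator, real part -/
noncomputable def LR (x : ℝ) (a a2 b b1 : ℝ → ℝ) (t : ℝ) : ℝ :=
  a2 t - 2 * b1 t - a t + (1 - x) * (-2 * a t)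
    + rt * x * (-2 * a t + (a (t - tau) - rt / 2 * b (t - tau))
      + (a (t + tau) + rt / 2 * b (t + tau)))
    - x / 3 * ((-1 / 2 * a (t - tau) - rt / 2 * b (t - tau) - a t) - 9 / 2 * chi a b (t + tau)
      + (-1 / 2 * a (t + tau) + rt / 2 * b (t + tau) - a t) - 9 / 2 * chi a b (t - tau))

/-- linearised planar operator, imaginary part -/
noncomputable def LI (x : ℝ) (a a1 b b2 : ℝ → ℝ) (t : ℝ) : ℝ :=
  b2 t + 2 * a1 t - b t + (1 - x) * b t
    + rt * x * (b t + (-rt * a (t - tau) - 1 / 2 * b (t - tau))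
      + (rt * a (t + tau) - 1 / 2 * b (t + tau)))
    - x / 3 * ((rt / 2 * a (t - tau) - 1 / 2 * b (t - tau) - b t) + 3 * rt / 2 * chi a b (t + tau)
      + (-rt / 2 * a (t + tau) - 1 / 2 * b (t + tau) - b t) - 3 * rt / 2 * chi a b (t - tau))

theorem planar_solve0 (x k1 k2 : ℝ)
    (hres : 8 + (1 + (3 * rt - 1) * x) = 9 * (1 - x) * (1 + (3 * rt - 1) * x))
    (hn : 3 < 1 + (3 * rt - 1) * x) (hk : 3 * (1 + (3 * rt - 1) * x) * k1 - k2 ≠ 0)
    (g1 g2 : ℝ → ℝ) (hc1 : Continuous g1) (hc2 : Continuous g2)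
    (hp1 : ∀ t, g1 (t + 2 * π) = g1 t) (hp2 : ∀ t, g2 (t + 2 * π) = g2 t) :
    ∃ (a a1 a2 b b1 b2 : ℝ → ℝ) (cr ci m : ℝ), TJ a a1 a2 ∧ TJ b b1 b2 ∧
      ∀ t, LR x a a2 b b1 t = g1 t - cr * (k1 + k2) * cos t - ci * (k1 + k2) * sin t ∧
        LI x a a1 b b2 t = g2 t - m - cr * (k2 - k1) * sin t - ci * (k1 - k2) * cos t := by
  obtain ⟨u, u1, u2, v, v1, v2, m, hu, hv, h0⟩ := solve_kepler (Av g1) (Av g2) (Av_cont hc1)
    (Av_cont hc2) (Av_per hp1) (Av_per hp2)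
  obtain ⟨p, p1, p2, q, q1, q2, r, r1, r2, s, s1, s2, cr, ci, hp, hq, hr, hs, h⟩ :=
    solve_quartic (1 - x) (1 + (3 * rt - 1) * x) k1 k2 hres hn hk
      (Av fun t => cos t * g1 t - sin t * g2 t) (Av fun t => sin t * g1 t + cos t * g2 t)
      (Av fun t => cos t * g1 t + sin t * g2 t) (Av fun t => sin t * g1 t - cos t * g2 t)
      (Av_cont (by fun_prop)) (Av_cont (by fun_prop)) (Av_cont (by fun_prop))
      (Av_cont (by fun_prop))
      (Av_per fun t => by rw [hp1, hp2, cos_add_two_pi, sin_add_two_pi])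
      (Av_per fun t => by rw [hp1, hp2, cos_add_two_pi, sin_add_two_pi])
      (Av_per fun t => by rw [hp1, hp2, cos_add_two_pi, sin_add_two_pi])
      (Av_per fun t => by rw [hp1, hp2, cos_add_two_pi, sin_add_two_pi])
  have hA := trig_jet hu (hp.add hr) (hq.add hs)
  have hB := trig_jet hv (hq.sub hs) (hr.sub hp)
  refine ⟨_, _, _, _, _, _, cr, ci, m, hA, hB, fun t => ?_⟩
  obtain ⟨e1, e2⟩ := h0 t
  obtain ⟨e3, e4, e5, e6⟩ := h t
  simp only [Av, cos_p, cos_m, sin_p, sin_m] at e1 e2 e3 e4 e5 e6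
  constructor
  · simp only [LR, chi, hu.per, hv.per, hp.per, hq.per, hr.per, hs.per, per1_m hu.per,
      per1_m hv.per, per1_m hp.per, per1_m hq.per, per1_m hr.per, per1_m hs.per, cos_p, cos_m,
      sin_p, sin_m]
    linear_combination (norm := (ring_nf; simp only [rt2, rt3, rt4]; ring))
      e1 + cos t * (e3 + e5) + sin t * (e4 + e6)
      + (2 / 3 * g1 t - g1 (t + tau) / 3 - g1 (t - tau) / 3) * cos_sq_add_sin_sq t
  · simp only [LI, chi, hu.per, hv.per, hp.per, hq.per, hr.per, hs.per, per1_m hu.per,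
      per1_m hv.per, per1_m hp.per, per1_m hq.per, per1_m hr.per, per1_m hs.per, cos_p, cos_m,
      sin_p, sin_m]
    linear_combination (norm := (ring_nf; simp only [rt2, rt3, rt4]; ring))
      e2 + cos t * (e4 - e6) + sin t * (e5 - e3)
      + (2 / 3 * g2 t - g2 (t + tau) / 3 - g2 (t - tau) / 3) * cos_sq_add_sin_sq t

theorem planar_solve (x k1 k2 : ℝ)
    (hres : 8 + (1 + (3 * rt - 1) * x) = 9 * (1 - x) * (1 + (3 * rt - 1) * x))
    (hn : 3 < 1 + (3 * rt - 1) * x) (hk : 3 * (1 + (3 * rt - 1) * x) * k1 - k2 ≠ 0)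
    (g1 g2 : ℝ → ℝ) (hc1 : Continuous g1) (hc2 : Continuous g2)
    (hp1 : ∀ t, g1 (t + 2 * π) = g1 t) (hp2 : ∀ t, g2 (t + 2 * π) = g2 t)
    (he1 : ∀ t, g1 (-t) = g1 t) (he2 : ∀ t, g2 (-t) = - g2 t) :
    ∃ (a a1 a2 b b1 b2 : ℝ → ℝ) (c : ℝ), TJ a a1 a2 ∧ TJ b b1 b2 ∧
      (∀ t, a (-t) = a t) ∧ (∀ t, b (-t) = - b t) ∧
      ∀ t, LR x a a2 b b1 t + c * (k1 + k2) * cos t = g1 t ∧
        LI x a a1 b b2 t + c * (k2 - k1) * sin t = g2 t := by
  obtain ⟨a, a1, a2, b, b1, b2, cr, ci, m, hA, hB, h⟩ :=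
    planar_solve0 x k1 k2 hres hn hk g1 g2 hc1 hc2 hp1 hp2
  refine ⟨_, _, _, _, _, _, cr, hA.even, hB.odd, fun t => ?_, fun t => ?_, fun t => ?_⟩
  · simp only [neg_neg]; ring
  · simp only [neg_neg]; ring
  · obtain ⟨e1, e2⟩ := h t
    obtain ⟨e3, e4⟩ := h (-t)
    rw [he1, cos_neg, sin_neg] at e3
    rw [he2, cos_neg, sin_neg] at e4
    simp only [LR, LI, chi, np, nm] at e1 e2 e3 e4 ⊢
    constructor
    · linear_combination (e1 + e3) / 2
    · linear_combination (e2 - e4) / 2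

end Pool.Agent.H113Z.FB
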