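import Pool.Agent.H113Z.FB.Defs

/-!
Symmetric unknowns give symmetric right hand sides.
-/

set_option autoImplicit false

open Topology Filter

namespace Pool.Agent.H113Z.FB

/-- the conditions defining the space of unknowns, written out -/
structure Good (a a1 a2 b b1 b2 z z1 z2 y y1 y2 σ χ : B) : Prop where
  da : ∀ t, HasDerivAt a (a1 t) t
  da1 : ∀ t, HasDerivAt a1 (a2 t) t
  db : ∀ t, HasDerivAt b (b1 t) t
  db1 : ∀ t, HasDerivAt b1 (b2 t) t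
  dz : ∀ t, HasDerivAt z (z1 t) t
  dz1 : ∀ t, HasDerivAt z1 (z2 t) t
  dy : ∀ t, HasDerivAt y (y1 t) t
  dy1 : ∀ t, HasDerivAt y1 (y2 t) t
  pa : ∀ t, a (t + 2 * Real.pi) = a t
  pb : ∀ t, b (t + 2 * Real.pi) = b t
  pz : ∀ t, z (t + 2 * Real.pi) = z t
  py : ∀ t, y (t + tau) = y t
  ps : ∀ t, σ (t + 2 * Real.pi) = σ t
  pc : ∀ t, χ (t + 2 * Real.pi) = χ t
  ea : ∀ t, a (-t) = a t
  eb : ∀ t, b (-t) = - b t
  ez : ∀ t, z (-t) = z t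
  ey : ∀ t, y (-t) = y t
  es : ∀ t, σ (-t) = σ t
  ec : ∀ t, χ (-t) = χ t
  sz : ∀ t, z t + z (t + tau) + z (t - tau) = 0

theorem mem_X (a a1 a2 b b1 b2 z z1 z2 y y1 y2 σ χ : B) (ν x : ℝ) :
    (((a, a1, a2), (b, b1, b2), (z, z1, z2), (y, y1, y2), σ, χ, ν, x) : U) ∈ X ↔
      Good a a1 a2 b b1 b2 z z1 z2 y y1 y2 σ χ := by
  simp only [X, Submodule.mem_prod, mem_JJ, mem_PE, mem_PO, mem_ZE, mem_YE, Submodule.mem_top,
    and_true]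
  constructor
  · rintro ⟨⟨⟨h1, h2⟩, h3, h4⟩, ⟨⟨h5, h6⟩, h7, h8⟩, ⟨⟨h9, h10⟩, ⟨h11, h12⟩, h13⟩,
      ⟨⟨h14, h15⟩, h16, h17⟩, ⟨h18, h19⟩, h20, h21⟩
    exact ⟨h1, h2, h5, h6, h9, h10, h14, h15, h3, h7, h11, h16, h18, h20, h4, h8, h12, h17, h19,
      h21, h13⟩
  · intro h
    exact ⟨⟨⟨h.da, h.da1⟩, h.pa, h.ea⟩, ⟨⟨h.db, h.db1⟩, h.pb, h.eb⟩,
      ⟨⟨h.dz, h.dz1⟩, ⟨h.pz, h.ez⟩, h.sz⟩, ⟨⟨h.dy, h.dy1⟩, h.py, h.ey⟩, ⟨h.ps, h.es⟩, h.pc, h.ec⟩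

theorem mem_Y (g1 g2 g3 g4 g5 g6 : B) : ((g1, g2, g3, g4, g5, g6) : T) ∈ Y ↔
    g1 ∈ PE ∧ g2 ∈ PE ∧ g3 ∈ PE ∧ g4 ∈ PO ∧ g5 ∈ ZE ∧ g6 ∈ YE := by
  simp only [Y, Submodule.mem_prod]

theorem G_mem (p : U × ℝ) (hp : p.1 ∈ X) : G p ∈ Y := by
  obtain ⟨⟨⟨a, a1, a2⟩, ⟨b, b1, b2⟩, ⟨z, z1, z2⟩, ⟨y, y1, y2⟩, σ, χ, ν, x⟩, e⟩ := p
  have h := (mem_X a a1 a2 b b1 b2 z z1 z2 y y1 y2 σ χ ν x).1 hp
  have pa1 := deriv_shift h.da _ h.pa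
  have pa2 := deriv_shift h.da1 _ pa1
  have pb1 := deriv_shift h.db _ h.pb
  have pb2 := deriv_shift h.db1 _ pb1
  have pz1 := deriv_shift h.dz _ h.pz
  have pz2 := deriv_shift h.dz1 _ pz1
  have py1 := deriv_shift h.dy _ h.py
  have py2 := deriv_shift h.dy1 _ py1
  have ea1 := deriv_even h.da h.ea
  have ea2 := deriv_odd h.da1 ea1
  have eb1 := deriv_odd h.db h.eb
  have eb2 := deriv_even h.db1 eb1
  have ez1 := deriv_even h.dz h.ez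
  have ez2 := deriv_odd h.dz1 ez1
  have ey1 := deriv_even h.dy h.ey
  have ey2 := deriv_odd h.dy1 ey1
  have sz2 := deriv_sum0 h.dz1 (deriv_sum0 h.dz h.sz)
  have pyT := per1_T h.py
  unfold G
  rw [mem_Y, mem_PE, mem_PE, mem_PE, mem_PO, mem_ZE, mem_YE]
  refine ⟨⟨fun t => ?_, fun t => ?_⟩, ⟨fun t => ?_, fun t => ?_⟩, ⟨fun t => ?_, fun t => ?_⟩,
    ⟨fun t => ?_, fun t => ?_⟩, ⟨⟨fun t => ?_, fun t => ?_⟩, fun t => ?_⟩, fun t => ?_,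
    fun t => ?_⟩
  · simp only [gS_apply, h.pa, h.pb, h.pz, pyT, h.ps]
  · simp only [gS_apply, h.ea, h.eb, h.ez, h.ey, h.es]; ring
  · simp only [gC_apply, rNr_apply, rNi_apply, rPr_apply, rPi_apply, h.pc, per_Tp h.pa,
      per_Tm h.pa, per_Tp h.pb, per_Tm h.pb, per_Tp h.pz, per_Tm h.pz]
  · simp only [gC_apply, rNr_apply, rNi_apply, rPr_apply, rPi_apply, neg_p, neg_m, h.ea, h.eb,
      h.ez, h.ec]; ring
  · simp only [gR_apply, fR_apply, fI_apply, c3_apply, rNr_apply, rPr_apply, h.pa, h.ps,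
      pa2, pb1, per_Tp h.pa, per_Tm h.pa, per_Tp h.pb, per_Tm h.pb, per_Tp h.ps, per_Tm h.ps,
      per_Tp h.pc, per_Tm h.pc]
  · simp only [gR_apply, fR_apply, fI_apply, c3_apply, rNr_apply, rPr_apply, neg_p, neg_m, h.ea,
      h.eb, h.es, h.ec, ea2, eb1]; ring
  · simp only [gI_apply, fR_apply, fI_apply, c3_apply, rNi_apply, rPi_apply, h.pb, h.ps,
      pa1, pb2, per_Tp h.pa, per_Tm h.pa, per_Tp h.pb, per_Tm h.pb, per_Tp h.ps, per_Tm h.ps,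
      per_Tp h.pc, per_Tm h.pc]
  · simp only [gI_apply, fR_apply, fI_apply, c3_apply, rNi_apply, rPi_apply, neg_p, neg_m, h.ea,
      h.eb, h.es, h.ec, ea1, eb2]; ring
  · simp only [gZ_apply, sm_apply, fV_apply, c3_apply, h.pz, h.ps, pyT, pz2,
      per_Tp h.pz, per_Tm h.pz, per_Tp pyT, per_Tm pyT, per_Tp h.ps, per_Tm h.ps,
      per_Tp h.pc, per_Tm h.pc]
  · simp only [gZ_apply, sm_apply, fV_apply, c3_apply, neg_p, neg_m, h.ez, h.ey, h.es, h.ec, ez2]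
    ring
  · simp only [gZ_apply, sm_apply, fV_apply, c3_apply, add_sub_cancel_right, sub_add_cancel,
      per_pp h.pz, per_mm h.pz, per_pp pyT, per_mm pyT, per_pp h.ps, per_mm h.ps,
      per_pp h.pc, per_mm h.pc]
    linear_combination ν ^ 2 * sz2 t + h.sz t
  · simp only [gY_apply, sm_apply, fV_apply, c3_apply, add_sub_cancel_right, py2,
      per_pp h.pz, per_pp pyT, per_pp h.ps]
    ring
  · simp only [gY_apply, sm_apply, fV_apply, c3_apply, neg_p, neg_m, h.ez, h.ey, h.es, ey2]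
    ring

end Pool.Agent.H113Z.FB
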