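import Pool.Agent.H113Z.FB.Lin3
import Pool.Agent.H113Z.FB.Mem

/-!
The base point, surjectivity of the linearisation there, and existence of nearby solutions.
-/

set_option autoImplicit false

open Topology Filter Real

namespace Pool.Agent.H113Z.FB

/-- the resonant value of the mass parameter -/
noncomputable def xs : ℝ := (199 - 27 * rt) / 234

theorem xs_lo : 0.64 < xs := by unfold xs; linarith [rt_hi]
theorem xs_hi : xs < 0.66 := by unfold xs; linarith [rt_lo]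

theorem xs_res : 8 + (1 + (3 * rt - 1) * xs) = 9 * (1 - xs) * (1 + (3 * rt - 1) * xs) := by
  unfold xs
  ring_nf; simp only [rt2, rt3]; ring

theorem xs_n : 1 + (3 * rt - 1) * xs = 8 * (3 * rt - 1) / 9 := by
  unfold xs
  ring_nf; simp only [rt2]; ring

/-- cosine -/
noncomputable def Cs : B := (exists_B cos continuous_cos cos_add_two_pi).choose
/-- sine -/
noncomputable def Sn : B := (exists_B sin continuous_sin sin_add_two_pi).choose

@[simp] theorem Cs_apply (t : ℝ) : Cs t = cos t :=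
  (exists_B cos continuous_cos cos_add_two_pi).choose_spec t
@[simp] theorem Sn_apply (t : ℝ) : Sn t = sin t :=
  (exists_B sin continuous_sin sin_add_two_pi).choose_spec t

theorem Cs_coe : (Cs : ℝ → ℝ) = cos := funext Cs_apply
theorem Sn_coe : (Sn : ℝ → ℝ) = sin := funext Sn_apply

/-- the base point -/
noncomputable def u0 : U :=
  (((3 * xs - 2) • Cs, (2 - 3 * xs) • Sn, (2 - 3 * xs) • Cs),
   ((4 - 3 * xs) • Sn, (4 - 3 * xs) • Cs, (3 * xs - 4) • Sn),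
   (Cs, -Sn, -Cs),
   ((3 / 2 * (3 * xs - 2)) • (1 : B), 0, 0),
   (2 - 3 * xs) • Cs, (3 * xs - 3) • Cs, 1, xs)

theorem dCs (c d : ℝ) (h : d = -c) (t : ℝ) : HasDerivAt (c • Cs : B) ((d • Sn : B) t) t := by
  have : ((c • Cs : B) : ℝ → ℝ) = fun t => c * cos t := by funext t; simp
  rw [this]
  exact ((hasDerivAt_cos t).const_mul c).congr_deriv (by simp [h])

theorem dSn (c d : ℝ) (h : d = c) (t : ℝ) : HasDerivAt (c • Sn : B) ((d • Cs : B) t) t := by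
  have : ((c • Sn : B) : ℝ → ℝ) = fun t => c * sin t := by funext t; simp
  rw [this]
  exact ((hasDerivAt_sin t).const_mul c).congr_deriv (by simp [h])

theorem u0_mem : u0 ∈ X := by
  unfold u0
  rw [mem_X]
  refine ⟨dCs _ _ (by ring), dSn _ _ rfl, dSn _ _ rfl, dCs _ _ (by ring), fun t => ?_,
    fun t => ?_, fun t => ?_, fun t => ?_, ?_, ?_, ?_, ?_, ?_, ?_, ?_, ?_, ?_, ?_, ?_, ?_, ?_⟩
  · rw [Cs_coe]; simpa using hasDerivAt_cos t
  · have : ((-Sn : B) : ℝ → ℝ) = fun t => - sin t := by funext t; simp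
    rw [this]; exact (hasDerivAt_sin t).neg.congr_deriv (by simp)
  · have : (((3 / 2 * (3 * xs - 2)) • (1 : B) : B) : ℝ → ℝ)
        = fun _ => 3 / 2 * (3 * xs - 2) := by funext t; simp
    rw [this]; simpa using hasDerivAt_const t (3 / 2 * (3 * xs - 2))
  · exact hasDerivAt_const t (0 : ℝ)
  all_goals intro t
  all_goals simp [cos_p, cos_m]
  ring

theorem G_u0 : G (u0, 0) = 0 := by
  unfold G u0
  simp only [Prod.mk_eq_zero]
  refine ⟨?_, ?_, ?_, ?_, ?_, ?_⟩ <;> ext t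
  · simp [gS_apply]; ring
  · simp [gC_apply, rNi_apply, rPi_apply, cos_p, cos_m, sin_p, sin_m]
    ring_nf; simp only [rt2]; ring
  · simp [gR_apply, fR_apply, fI_apply, c3_apply, rNr_apply, rPr_apply, cos_p, cos_m, sin_p,
      sin_m]
    linear_combination (norm := (ring_nf; simp only [rt2, rt3]; ring)) (-cos t / 2) * xs_res
  · simp [gI_apply, fR_apply, fI_apply, c3_apply, rNi_apply, rPi_apply, cos_p, cos_m, sin_p,
      sin_m]
    linear_combination (norm := (ring_nf; simp only [rt2, rt3]; ring)) (-sin t / 2) * xs_res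
  · simp [gZ_apply]
  · simp [gY_apply, sm_apply, fV_apply, c3_apply, cos_p, cos_m]
    right
    linear_combination (norm := (ring_nf; simp only [rt2]; ring))
      (9 / 2 * (2 - 3 * xs)) * cos_sq_add_sin_sq t

/-- the equations restricted to the symmetric unknowns -/
noncomputable def GX (p : X × ℝ) : T := G (p.1.1, p.2)

theorem contDiff_GX : ContDiff ℝ 1 GX := by
  have h0 : ContDiff ℝ 1 (fun p : X => (p.1 : U)) :=
    ContinuousLinearMap.contDiff (𝕜 := ℝ) (E := X) (F := U) X.subtypeL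
  have h1 : ContDiff ℝ 1 (fun p : X × ℝ => ((p.1.1, p.2) : U × ℝ)) :=
    (h0.comp contDiff_fst).prodMk contDiff_snd
  exact contDiff_G.comp h1

/-- the base point as a symmetric unknown -/
noncomputable def x0 : X := ⟨u0, u0_mem⟩

/-- the linearisation -/
noncomputable def LL : X →L[ℝ] T :=
  (fderiv ℝ GX (x0, 0)).comp (ContinuousLinearMap.inl ℝ X ℝ)

theorem hasFDerivAt_GX : HasFDerivAt GX (fderiv ℝ GX (x0, 0)) (x0, 0) :=
  (contDiff_GX.differentiable (by simp) _).hasFDerivAt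

theorem LL_mem (v : X) : LL v ∈ Y :=
  fderiv_mem Y isClosed_Y GX _ _ hasFDerivAt_GX (fun p => G_mem _ p.1.2) _

theorem LL_eq (pr : T →L[ℝ] B) (v : X) (g : B)
    (h : ∀ t, ∃ c2 c3 : ℝ, ∀ ε : ℝ,
      pr (G (u0 + ε • v.1, 0)) t = ε * g t + ε ^ 2 * c2 + ε ^ 3 * c3) : pr (LL v) = g := by
  ext t
  obtain ⟨c2, c3, hc⟩ := h t
  have h1 := hasDerivAt_line GX _ (x0, 0) (v, 0) hasFDerivAt_GX
  have h2 := ((BoundedContinuousFunction.evalCLM ℝ t).comp pr).hasFDerivAt.comp_hasDerivAt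
    (0 : ℝ) h1
  have h3 : HasDerivAt (fun ε : ℝ => ε * g t + ε ^ 2 * c2 + ε ^ 3 * c3) (g t) 0 := by
    have := (((hasDerivAt_id (0 : ℝ)).mul_const (g t)).add
      ((hasDerivAt_pow 2 (0 : ℝ)).mul_const c2)).add ((hasDerivAt_pow 3 (0 : ℝ)).mul_const c3)
    exact this.congr_deriv (by simp)
  have h4 : (((BoundedContinuousFunction.evalCLM ℝ t).comp pr) ∘
      fun ε : ℝ => GX ((x0, 0) + ε • (v, 0)))
      = fun ε : ℝ => ε * g t + ε ^ 2 * c2 + ε ^ 3 * c3 := by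
    funext ε
    rw [← hc ε]
    simp [GX, x0]
  rw [h4] at h2
  exact h2.unique h3

/-- the six coordinate projections -/
noncomputable def q1 : T →L[ℝ] B := ContinuousLinearMap.fst ℝ _ _
/-- second coordinate -/
noncomputable def q2 : T →L[ℝ] B :=
  (ContinuousLinearMap.fst ℝ _ _).comp (ContinuousLinearMap.snd ℝ _ _)
/-- third coordinate -/
noncomputable def q3 : T →L[ℝ] B :=
  (ContinuousLinearMap.fst ℝ _ _).comp ((ContinuousLinearMap.snd ℝ _ _).comp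
    (ContinuousLinearMap.snd ℝ _ _))
/-- fourth coordinate -/
noncomputable def q4 : T →L[ℝ] B :=
  (ContinuousLinearMap.fst ℝ _ _).comp ((ContinuousLinearMap.snd ℝ _ _).comp
    ((ContinuousLinearMap.snd ℝ _ _).comp (ContinuousLinearMap.snd ℝ _ _)))
/-- fifth coordinate -/
noncomputable def q5 : T →L[ℝ] B :=
  (ContinuousLinearMap.fst ℝ _ _).comp ((ContinuousLinearMap.snd ℝ _ _).comp
    ((ContinuousLinearMap.snd ℝ _ _).comp ((ContinuousLinearMap.snd ℝ _ _).comp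
      (ContinuousLinearMap.snd ℝ _ _))))
/-- sixth coordinate -/
noncomputable def q6 : T →L[ℝ] B :=
  (ContinuousLinearMap.snd ℝ _ _).comp ((ContinuousLinearMap.snd ℝ _ _).comp
    ((ContinuousLinearMap.snd ℝ _ _).comp ((ContinuousLinearMap.snd ℝ _ _).comp
      (ContinuousLinearMap.snd ℝ _ _))))

theorem q1_apply (y : T) : q1 y = y.1 := rfl
theorem q2_apply (y : T) : q2 y = y.2.1 := rfl
theorem q3_apply (y : T) : q3 y = y.2.2.1 := rfl
theorem q4_apply (y : T) : q4 y = y.2.2.2.1 := rfl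
theorem q5_apply (y : T) : q5 y = y.2.2.2.2.1 := rfl
theorem q6_apply (y : T) : q6 y = y.2.2.2.2.2 := rfl

theorem d0 (t : ℝ) : HasDerivAt (0 : B) ((0 : B) t) t := hasDerivAt_const t (0 : ℝ)

section atzero

variable (a a1 a2 b b1 b2 z z1 z2 y y1 y2 σ χ : B) (ν x t : ℝ)

theorem G0_1 : q1 (G (((a, a1, a2), (b, b1, b2), (z, z1, z2), (y, y1, y2), σ, χ, ν, x), 0)) t
    = 2 * σ t + 2 * a t := by
  simp [q1_apply, G, gS_apply]

theorem G0_2 : q2 (G (((a, a1, a2), (b, b1, b2), (z, z1, z2), (y, y1, y2), σ, χ, ν, x), 0)) t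
    = 6 * χ t - 6 * chi a b t := by
  simp [q2_apply, G, gC_apply, rNi_apply, rPi_apply, chi]; ring

theorem G0_3 : q3 (G (((a, a1, a2), (b, b1, b2), (z, z1, z2), (y, y1, y2), σ, χ, ν, x), 0)) t
    = ν ^ 2 * a2 t - 2 * ν * b1 t - a t + (1 - x) * (a t + 3 * σ t)
      + rt * x * (a t + 3 * σ t
        + (-1 / 2 * (a (t - tau) + 3 * σ (t - tau)) - rt / 2 * b (t - tau))
        + (-1 / 2 * (a (t + tau) + 3 * σ (t + tau)) + rt / 2 * b (t + tau)))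
      - x / 3 * ((-1 / 2 * a (t - tau) - rt / 2 * b (t - tau) - a t) - 9 / 2 * χ (t + tau)
        + (-1 / 2 * a (t + tau) + rt / 2 * b (t + tau) - a t) - 9 / 2 * χ (t - tau)) := by
  simp only [q3_apply, G, gR_apply, fR_apply, fI_apply, c3_apply, rNr_apply, rPr_apply]; ring

theorem G0_4 : q4 (G (((a, a1, a2), (b, b1, b2), (z, z1, z2), (y, y1, y2), σ, χ, ν, x), 0)) t
    = ν ^ 2 * b2 t + 2 * ν * a1 t - b t + (1 - x) * b t
      + rt * x * (b t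
        + (rt / 2 * (a (t - tau) + 3 * σ (t - tau)) - 1 / 2 * b (t - tau))
        + (-rt / 2 * (a (t + tau) + 3 * σ (t + tau)) - 1 / 2 * b (t + tau)))
      - x / 3 * ((rt / 2 * a (t - tau) - 1 / 2 * b (t - tau) - b t) + 3 * rt / 2 * χ (t + tau)
        + (-rt / 2 * a (t + tau) - 1 / 2 * b (t + tau) - b t) - 3 * rt / 2 * χ (t - tau)) := by
  simp only [q4_apply, G, gI_apply, fR_apply, fI_apply, c3_apply, rNi_apply, rPi_apply]; ring

theorem G0_5 : q5 (G (((a, a1, a2), (b, b1, b2), (z, z1, z2), (y, y1, y2), σ, χ, ν, x), 0)) t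
    = ν ^ 2 * z2 t + z t := by
  simp [q5_apply, G, gZ_apply]

theorem G0_6 : q6 (G (((a, a1, a2), (b, b1, b2), (z, z1, z2), (y, y1, y2), σ, χ, ν, x), 0)) t
    = ν ^ 2 * y2 t + (1 + (3 * rt - 1) * x) / 3 * ((y t + z t * (3 * σ t))
      + (y (t + tau) + z (t + tau) * (3 * σ (t + tau)))
      + (y (t - tau) + z (t - tau) * (3 * σ (t - tau)))) := by
  simp [q6_apply, G, gY_apply, sm_apply, fV_apply, c3_apply]

theorem u0_line (ε : ℝ) :
    u0 + ε • (((a, a1, a2), (b, b1, b2), (z, z1, z2), (y, y1, y2), σ, χ, ν, x) : U) =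
    (((3 * xs - 2) • Cs + ε • a, (2 - 3 * xs) • Sn + ε • a1, (2 - 3 * xs) • Cs + ε • a2),
     ((4 - 3 * xs) • Sn + ε • b, (4 - 3 * xs) • Cs + ε • b1, (3 * xs - 4) • Sn + ε • b2),
     (Cs + ε • z, -Sn + ε • z1, -Cs + ε • z2),
     ((3 / 2 * (3 * xs - 2)) • (1 : B) + ε • y, 0 + ε • y1, 0 + ε • y2),
     (2 - 3 * xs) • Cs + ε • σ, (3 * xs - 3) • Cs + ε • χ, 1 + ε * ν, xs + ε * x) := rfl

end atzero

theorem case_eta (g : B) (hg : g ∈ YE) : ∃ v : X, LL v = (0, 0, 0, 0, 0, g) := by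
  rw [mem_YE] at hg
  obtain ⟨y, y1, y2, hJ, hp, he, h⟩ := eta_solve (1 + (3 * rt - 1) * xs)
    (by rw [xs_n]; linarith [rt_lo]) (by rw [xs_n]; linarith [rt_hi]) g g.continuous hg.1 hg.2
  obtain ⟨Y0, Y1, Y2, e0, e1, e2, d1, d2⟩ := hJ.exists_B
  have hv : (((0, 0, 0), (0, 0, 0), (0, 0, 0), (Y0, Y1, Y2), 0, 0, 0, 0) : U) ∈ X := by
    rw [mem_X]
    refine ⟨d0, d0, d0, d0, d0, d0, d1, d2, ?_, ?_, ?_, ?_, ?_, ?_, ?_, ?_, ?_, ?_, ?_, ?_, ?_⟩
    all_goals intro t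
    all_goals simp [e0, hp, he]
  refine ⟨⟨_, hv⟩, ?_⟩
  have k1 : q1 (LL ⟨_, hv⟩) = 0 := LL_eq q1 _ _ fun t => ⟨0, 0, fun ε => by
    simp only [u0_line, G0_1]; simp; ring⟩
  have k2 : q2 (LL ⟨_, hv⟩) = 0 := LL_eq q2 _ _ fun t => ⟨0, 0, fun ε => by
    simp only [u0_line, G0_2, chi]; simp [cos_p, cos_m, sin_p, sin_m]
    ring_nf; simp only [rt2]; ring⟩
  have k3 : q3 (LL ⟨_, hv⟩) = 0 := LL_eq q3 _ _ fun t => ⟨0, 0, fun ε => by
    simp only [u0_line, G0_3]; simp [cos_p, cos_m, sin_p, sin_m]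
    linear_combination (norm := (ring_nf; simp only [rt2, rt3]; ring)) (-cos t / 2) * xs_res⟩
  have k4 : q4 (LL ⟨_, hv⟩) = 0 := LL_eq q4 _ _ fun t => ⟨0, 0, fun ε => by
    simp only [u0_line, G0_4]; simp [cos_p, cos_m, sin_p, sin_m]
    linear_combination (norm := (ring_nf; simp only [rt2, rt3]; ring)) (-sin t / 2) * xs_res⟩
  have k5 : q5 (LL ⟨_, hv⟩) = 0 := LL_eq q5 _ _ fun t => ⟨0, 0, fun ε => by
    simp only [u0_line, G0_5]; simp⟩
  have k6 : q6 (LL ⟨_, hv⟩) = g := LL_eq q6 _ _ fun t => ⟨0, 0, fun ε => by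
    simp only [u0_line, G0_6]; simp [cos_p, cos_m, e0, e2, hp, per1_m hp]
    linear_combination (norm := (ring_nf; simp only [rt2, rt3]; ring)) ε * h t
      + ((1 + (3 * rt - 1) * xs) * (3 / 2 * (2 - 3 * xs))) * cos_sq_add_sin_sq t⟩
  exact Prod.ext k1 (Prod.ext k2 (Prod.ext k3 (Prod.ext k4 (Prod.ext k5 k6))))

theorem case_planar (g1 g2 : B) (hg1 : g1 ∈ PE) (hg2 : g2 ∈ PO) :
    ∃ v : X, q1 (LL v) = 0 ∧ q2 (LL v) = 0 ∧ q3 (LL v) = g1 ∧ q4 (LL v) = g2 ∧ q5 (LL v) = 0 := by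
  rw [mem_PE] at hg1
  rw [mem_PO] at hg2
  have hk : 3 * (1 + (3 * rt - 1) * xs) * (3 / 2) - (3 * rt - 1) * (8 - 9 * xs) / 2 ≠ 0 := by
    rw [xs_n]
    have : 0 < (3 * rt - 1) * xs := mul_pos (by linarith [rt_lo]) (by linarith [xs_lo])
    intro h
    nlinarith
  obtain ⟨a, a1, a2, b, b1, b2, c, hA, hB, ea, eb, h⟩ := planar_solve xs (3 / 2)
    ((3 * rt - 1) * (8 - 9 * xs) / 2) xs_res (by rw [xs_n]; linarith [rt_lo]) hk g1 g2
    g1.continuous g2.continuous hg1.1 hg2.1 hg1.2 hg2.2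
  obtain ⟨A0, A1, A2, e0, e1, e2, d1, d2⟩ := hA.exists_B
  obtain ⟨B0, B1, B2, f0, f1, f2, d3, d4⟩ := hB.exists_B
  have hcp : ∀ t, chi a b (t + 2 * π) = chi a b t := fun t => by
    simp only [chi, per_Tp hA.per, per_Tm hA.per, per_Tp hB.per, per_Tm hB.per]
  obtain ⟨K, hK⟩ := exists_B (chi a b) (by
    have := hA.c0; have := hB.c0; unfold chi; fun_prop) hcp
  have hv : (((A0, A1, A2), (B0, B1, B2), (0, 0, 0), (0, 0, 0), -A0, K, 0, c) : U) ∈ X := by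
    rw [mem_X]
    refine ⟨d1, d2, d3, d4, d0, d0, d0, d0, ?_, ?_, ?_, ?_, ?_, ?_, ?_, ?_, ?_, ?_, ?_, ?_, ?_⟩
    all_goals intro t
    all_goals simp [e0, f0, hK, hA.per, hB.per, ea, eb, hcp]
    simp only [chi, neg_p, neg_m, ea, eb]; ring
  refine ⟨⟨_, hv⟩, LL_eq q1 _ _ fun t => ⟨0, 0, fun ε => ?_⟩,
    LL_eq q2 _ _ fun t => ⟨0, 0, fun ε => ?_⟩,
    LL_eq q3 _ _ fun t => ⟨c * (LR 1 a a2 b b1 t - LR 0 a a2 b b1 t), 0, fun ε => ?_⟩,
    LL_eq q4 _ _ fun t => ⟨c * (LI 1 a a1 b b2 t - LI 0 a a1 b b2 t), 0, fun ε => ?_⟩,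
    LL_eq q5 _ _ fun t => ⟨0, 0, fun ε => ?_⟩⟩
  · simp only [u0_line, G0_1]; simp; ring
  · simp only [u0_line, G0_2, chi]; simp [cos_p, cos_m, sin_p, sin_m, e0, f0, hK, chi]
    ring_nf; simp only [rt2]; ring
  · simp only [u0_line, G0_3]
    have h1 := (h t).1
    simp [cos_p, cos_m, sin_p, sin_m, e0, e2, f0, f1, hK]
    simp only [LR] at h1 ⊢
    linear_combination (norm := (ring_nf; simp only [rt2, rt3]; ring)) (-cos t / 2) * xs_res
      + ε * h1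
  · simp only [u0_line, G0_4]
    have h1 := (h t).2
    simp [cos_p, cos_m, sin_p, sin_m, e0, e1, f0, f2, hK]
    simp only [LI] at h1 ⊢
    linear_combination (norm := (ring_nf; simp only [rt2, rt3]; ring)) (-sin t / 2) * xs_res
      + ε * h1
  · simp only [u0_line, G0_5]; simp

theorem case_zeta (g : B) (hg : g ∈ ZE) :
    ∃ v : X, q1 (LL v) = 0 ∧ q2 (LL v) = 0 ∧ q5 (LL v) = g := by
  rw [mem_ZE] at hg
  obtain ⟨z, z1, z2, c, hJ, he, hs, h⟩ := zeta_solve g g.continuous hg.1.1 hg.1.2 hg.2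
  obtain ⟨Z0, Z1, Z2, e0, e1, e2, d1, d2⟩ := hJ.exists_B
  have hv : (((0, 0, 0), (0, 0, 0), (Z0, Z1, Z2), (0, 0, 0), 0, 0, c, 0) : U) ∈ X := by
    rw [mem_X]
    refine ⟨d0, d0, d0, d0, d1, d2, d0, d0, ?_, ?_, ?_, ?_, ?_, ?_, ?_, ?_, ?_, ?_, ?_, ?_, ?_⟩
    all_goals intro t
    all_goals simp [e0, hJ.per, he, hs]
  refine ⟨⟨_, hv⟩, LL_eq q1 _ _ fun t => ⟨0, 0, fun ε => ?_⟩,
    LL_eq q2 _ _ fun t => ⟨0, 0, fun ε => ?_⟩,
    LL_eq q5 _ _ fun t => ⟨2 * c * z2 t - c ^ 2 * cos t, c ^ 2 * z2 t, fun ε => ?_⟩⟩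
  · simp only [u0_line, G0_1]; simp; ring
  · simp only [u0_line, G0_2, chi]; simp [cos_p, cos_m, sin_p, sin_m]
    ring_nf; simp only [rt2]; ring
  · simp only [u0_line, G0_5]; simp [e0, e2]
    linear_combination ε * h t

theorem case_aux (g1 g2 : B) (hg1 : g1 ∈ PE) (hg2 : g2 ∈ PE) :
    ∃ v : X, q1 (LL v) = g1 ∧ q2 (LL v) = g2 := by
  rw [mem_PE] at hg1 hg2
  have hv : (((0, 0, 0), (0, 0, 0), (0, 0, 0), (0, 0, 0), (1 / 2 : ℝ) • g1, (1 / 6 : ℝ) • g2,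
      0, 0) : U) ∈ X := by
    rw [mem_X]
    refine ⟨d0, d0, d0, d0, d0, d0, d0, d0, ?_, ?_, ?_, ?_, ?_, ?_, ?_, ?_, ?_, ?_, ?_, ?_, ?_⟩
    all_goals intro t
    all_goals simp [hg1.1, hg1.2, hg2.1, hg2.2]
  refine ⟨⟨_, hv⟩, LL_eq q1 _ _ fun t => ⟨0, 0, fun ε => ?_⟩,
    LL_eq q2 _ _ fun t => ⟨0, 0, fun ε => ?_⟩⟩
  · simp only [u0_line, G0_1]; simp; ring
  · simp only [u0_line, G0_2, chi]; simp [cos_p, cos_m, sin_p, sin_m]
    ring_nf; simp only [rt2]; ring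

theorem memY (y : T) : y ∈ Y ↔
    q1 y ∈ PE ∧ q2 y ∈ PE ∧ q3 y ∈ PE ∧ q4 y ∈ PO ∧ q5 y ∈ ZE ∧ q6 y ∈ YE :=
  mem_Y y.1 y.2.1 y.2.2.1 y.2.2.2.1 y.2.2.2.2.1 y.2.2.2.2.2

theorem LL_surj (y : T) (hy : y ∈ Y) : ∃ v : X, LL v = y := by
  obtain ⟨v1, a1, a2⟩ := case_aux (q1 y) (q2 y) ((memY y).1 hy).1 ((memY y).1 hy).2.1
  have hy1 : y - LL v1 ∈ Y := Y.sub_mem hy (LL_mem _)
  obtain ⟨v2, b1, b2, b5⟩ := case_zeta (q5 (y - LL v1)) ((memY _).1 hy1).2.2.2.2.1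
  have hy2 : y - LL v1 - LL v2 ∈ Y := Y.sub_mem hy1 (LL_mem _)
  obtain ⟨v3, c1, c2, c3, c4, c5⟩ := case_planar (q3 (y - LL v1 - LL v2))
    (q4 (y - LL v1 - LL v2)) ((memY _).1 hy2).2.2.1 ((memY _).1 hy2).2.2.2.1
  have hy3 : y - LL v1 - LL v2 - LL v3 ∈ Y := Y.sub_mem hy2 (LL_mem _)
  obtain ⟨v4, d⟩ := case_eta (q6 (y - LL v1 - LL v2 - LL v3)) ((memY _).1 hy3).2.2.2.2.2
  refine ⟨v1 + v2 + v3 + v4, ?_⟩
  have k : ∀ w w' : T, q1 w = q1 w' → q2 w = q2 w' → q3 w = q3 w' → q4 w = q4 w' →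
      q5 w = q5 w' → q6 w = q6 w' → w = w' := fun w w' k1 k2 k3 k4 k5 k6 =>
    Prod.ext k1 (Prod.ext k2 (Prod.ext k3 (Prod.ext k4 (Prod.ext k5 k6))))
  have d1 : q1 (LL v4) = 0 := by rw [d]; rfl
  have d2 : q2 (LL v4) = 0 := by rw [d]; rfl
  have d3 : q3 (LL v4) = 0 := by rw [d]; rfl
  have d4 : q4 (LL v4) = 0 := by rw [d]; rfl
  have d5 : q5 (LL v4) = 0 := by rw [d]; rfl
  have d6 : q6 (LL v4) = q6 (y - LL v1 - LL v2 - LL v3) := by rw [d]; rfl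
  simp only [map_sub] at b5 c3 c4 d6
  apply k <;> simp only [map_add]
  · rw [a1, b1, c1, d1]; abel
  · rw [a2, b2, c2, d2]; abel
  · rw [c3, d3]; abel
  · rw [c4, d4]; abel
  · rw [b5, c5, d5]; abel
  · rw [d6]; abel

theorem exists_sol (W : Set (U × ℝ)) (hW : W ∈ 𝓝 ((u0, 0) : U × ℝ)) :
    ∃ p ∈ W, p.1 ∈ X ∧ p.2 ≠ 0 ∧ G p = 0 := by
  have : CompleteSpace X := isClosed_X.completeSpace_coe
  have hc : Continuous fun p : X × ℝ => ((p.1.1, p.2) : U × ℝ) := by fun_prop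
  obtain ⟨p, hp, h1, h2⟩ := exists_zero_near Y isClosed_Y GX contDiff_GX
    (fun p => G_mem _ p.1.2) x0 G_u0 (fun y hy => LL_surj y hy)
    ((fun p : X × ℝ => ((p.1.1, p.2) : U × ℝ)) ⁻¹' W) (hc.continuousAt.preimage_mem_nhds hW)
  exact ⟨_, hp, p.1.2, h1, h2⟩

end Pool.Agent.H113Z.FB
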