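import Pool.Agent.H113Z.FB.Rot
import Pool.Agent.H113Z.FB.Surj

/-!
A bounded solution of the spatial four-body problem without coplanar instants.
-/

set_option autoImplicit false

open Real Topology Filter

namespace Pool.Agent.H113Z.FB

/-- the volume of the tetrahedron, divided by the square of the small parameter -/
noncomputable def Dd (e : ℝ) (a b z y : B) : B :=
  (rt / 2) • sm y
    + (z + e • y) * ((1 / 2 : ℝ) • (rNi a b - rPi a b) - (rt / 2) • (rNr a b + rPr a b)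
      + e • (rNr a b * rPi a b - rPr a b * rNi a b))
    + (N z + e • N y) * ((rt / 2) • a - (1 / 2 : ℝ) • b - rPi a b + e • (rPr a b * b - a * rPi a b))
    + (P z + e • P y) * ((rt / 2) • a + (1 / 2 : ℝ) • b + rNi a b + e • (a * rNi a b - rNr a b * b))

/-- an upper bound for the energy carried by one of the three equal masses -/
noncomputable def En (e ν x : ℝ) (a a1 b b1 z1 y1 σ χ : B) : B :=
  (1 / 2 : ℝ) • (((ν * e) • a1 - e • b) * ((ν * e) • a1 - e • b)
    + ((ν * e) • b1 + 1 + e • a) * ((ν * e) • b1 + 1 + e • a)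
    + ((ν * e) • (z1 + e • y1)) * ((ν * e) • (z1 + e • y1)))
    - (1 - x) • (1 + e • σ) - x • (1 + e • χ)

theorem eventually_neg (H : U × ℝ → B) (hH : Continuous H) (c : ℝ) (hc : c < 0)
    (h0 : ∀ t, H (u0, 0) t = c) : ∀ᶠ p in 𝓝 ((u0, 0) : U × ℝ), ∀ t, H p t < 0 := by
  have h1 := (hH.tendsto (u0, 0)).eventually (Metric.ball_mem_nhds (H (u0, 0)) (neg_pos.2 hc))
  filter_upwards [h1] with p hp t
  have h2 : dist (H p t) (H (u0, 0) t) ≤ dist (H p) (H (u0, 0)) :=
    BoundedContinuousFunction.dist_coe_le_dist t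
  rw [h0, Real.dist_eq] at h2
  have h3 : dist (H p) (H (u0, 0)) < -c := hp
  have := le_abs_self (H p t - c)
  linarith

theorem exists_phys : ∃ (ν x : ℝ) (A A1 A2 F F1 F2 Z Z1 Z2 s Q : ℝ → ℝ),
    Phys ν x A A1 A2 F F1 F2 Z Z1 Z2 s Q := by
  have cD : ContDiff ℝ 1 fun p : U × ℝ =>
      Dd p.2 p.1.1.1 p.1.2.1.1 p.1.2.2.1.1 p.1.2.2.2.1.1 := by unfold Dd; fun_prop
  have cE : ContDiff ℝ 1 fun p : U × ℝ =>
      En p.2 p.1.2.2.2.2.2.2.1 p.1.2.2.2.2.2.2.2 p.1.1.1 p.1.1.2.1 p.1.2.1.1 p.1.2.1.2.1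
        p.1.2.2.1.2.1 p.1.2.2.2.1.2.1 p.1.2.2.2.2.1 p.1.2.2.2.2.2.1 := by unfold En; fun_prop
  have w1 := eventually_neg _ cD.continuous (3 * rt / 4 * (9 * xs - 8))
    (mul_neg_of_pos_of_neg (by have := rt_pos; positivity) (by linarith [xs_hi])) (fun t => by
      simp [Dd, u0, sm_apply, rNr_apply, rNi_apply, rPr_apply, rPi_apply, cos_p, cos_m, sin_p,
        sin_m]
      linear_combination (norm := (ring_nf; simp only [rt2, rt3]; ring))
        (-(3 * rt / 2)) * cos_sq_add_sin_sq t)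
  have w2 := eventually_neg _ cE.continuous (-1 / 2) (by norm_num) (fun t => by
      simp [En, u0]; ring)
  have w3 := eventually_neg (fun p : U × ℝ => -(1 + p.2 • p.1.2.2.2.2.1)) (by fun_prop) (-1)
    (by norm_num) (fun t => by simp)
  have w4 := eventually_neg (fun p : U × ℝ => -(1 + p.2 • p.1.2.2.2.2.2.1)) (by fun_prop) (-1)
    (by norm_num) (fun t => by simp)
  have cx : Continuous fun p : U × ℝ => p.1.2.2.2.2.2.2.2 := by fun_prop
  have w5 : ∀ᶠ p in 𝓝 ((u0, 0) : U × ℝ), p.1.2.2.2.2.2.2.2 ∈ Set.Ioo (0 : ℝ) 1 :=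
    (cx.tendsto (u0, 0)).eventually (Ioo_mem_nhds (show 0 < xs by linarith [xs_lo])
      (show xs < 1 by linarith [xs_hi]))
  obtain ⟨p, ⟨⟨⟨⟨k1, k2⟩, k3⟩, k4⟩, k5⟩, hX, he, hG⟩ :=
    exists_sol _ ((((w1.and w2).and w3).and w4).and w5)
  obtain ⟨⟨⟨a, a1, a2⟩, ⟨b, b1, b2⟩, ⟨z, z1, z2⟩, ⟨y, y1, y2⟩, σ, χ, ν, x⟩, e⟩ := p
  have h := (mem_X a a1 a2 b b1 b2 z z1 z2 y y1 y2 σ χ ν x).1 hX
  simp only at k1 k2 k3 k4 k5 he
  have g1 : ∀ t, gS e a b z y σ t = 0 := fun t => congrArg (fun w : T => w.1 t) hG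
  have g2 : ∀ t, gC e a b z χ t = 0 := fun t => congrArg (fun w : T => w.2.1 t) hG
  have g3 : ∀ t, gR e ν x a a2 b b1 σ χ t = 0 := fun t => congrArg (fun w : T => w.2.2.1 t) hG
  have g4 : ∀ t, gI e ν x a a1 b b2 σ χ t = 0 := fun t => congrArg (fun w : T => w.2.2.2.1 t) hG
  have g5 : ∀ t, gZ e ν x z z2 y σ χ t = 0 := fun t =>
    congrArg (fun w : T => w.2.2.2.2.1 t) hG
  have g6 : ∀ t, gY e ν x z y y2 σ t = 0 := fun t => congrArg (fun w : T => w.2.2.2.2.2 t) hG
  have pyT := per1_T h.py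
  have pym := per1_m h.py
  refine ⟨ν, x, fun t => 1 + e * a t, fun t => e * a1 t, fun t => e * a2 t,
    fun t => e * b t, fun t => e * b1 t, fun t => e * b2 t,
    fun t => e * (z t + e * y t), fun t => e * (z1 t + e * y1 t), fun t => e * (z2 t + e * y2 t),
    fun t => 1 + e * σ t, fun t => 1 + e * χ t,
    ⟨fun t => ((h.da t).const_mul e).const_add 1, fun t => (h.da1 t).const_mul e, by fun_prop,
      fun t => by rw [h.pa]⟩,
    ⟨fun t => (h.db t).const_mul e, fun t => (h.db1 t).const_mul e, by fun_prop,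
      fun t => by rw [h.pb]⟩,
    ⟨fun t => ((h.dz t).add ((h.dy t).const_mul e)).const_mul e,
      fun t => ((h.dz1 t).add ((h.dy1 t).const_mul e)).const_mul e, by fun_prop,
      fun t => by rw [h.pz, pyT]⟩,
    fun t => by rw [h.ps], fun t => by rw [h.pc], k5.1, k5.2, fun t => ?_, fun t => ?_,
    fun t => ?_, fun t => ?_, fun t => ?_, fun t => ?_, fun t => ?_, fun t => ?_, fun t => ?_, ?_⟩
  · have := k3 t; simp at this; linarith
  · have := k4 t; simp at this; linarith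
  · have := g1 t
    rw [gS_apply] at this
    linear_combination e * this
  · have := g2 t
    simp only [gC_apply, rNr_apply, rNi_apply, rPr_apply, rPi_apply] at this
    rw [h.py, pym]
    linear_combination (norm := (ring_nf; simp only [rt2]; ring)) e * this
  · have := g3 t
    simp only [gR_apply, fR_apply, fI_apply, c3_apply, rNr_apply, rPr_apply] at this
    linear_combination e * this
  · have := g4 t
    simp only [gI_apply, fR_apply, fI_apply, c3_apply, rNi_apply, rPi_apply] at this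
    linear_combination e * this
  · have i5 := g5 t
    have i6 := g6 t
    simp only [gZ_apply, gY_apply, sm_apply, fV_apply, c3_apply, h.py, pym] at i5 i6
    rw [h.py, pym]
    linear_combination e * i5 + e ^ 2 * i6 + e * (rt * x - x / 3) * h.sz t
  · have i1 := k1 t
    have i2 : e ^ 2 * Dd e a b z y t ≠ 0 := mul_ne_zero (pow_ne_zero 2 he) i1.ne
    intro hz
    apply i2
    simp [Dd, sm_apply, rNr_apply, rNi_apply, rPr_apply, rPi_apply, -mul_eq_zero]
    linear_combination hz - e * rt / 2 * h.sz t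
  · have i1 := k2 t
    simp [En] at i1
    linarith
  · refine ⟨(1 + |e| * ‖a‖) ^ 2 + (|e| * ‖b‖) ^ 2 + (|e| * (‖z‖ + |e| * ‖y‖)) ^ 2, fun t => ?_⟩
    have ha : |a t| ≤ ‖a‖ := a.norm_coe_le_norm t
    have hb : |b t| ≤ ‖b‖ := b.norm_coe_le_norm t
    have hz : |z t| ≤ ‖z‖ := z.norm_coe_le_norm t
    have hy : |y t| ≤ ‖y‖ := y.norm_coe_le_norm t
    have j1 : |1 + e * a t| ≤ 1 + |e| * ‖a‖ :=
      (abs_add_le _ _).trans (by rw [abs_one, abs_mul]; gcongr)
    have j2 : |e * b t| ≤ |e| * ‖b‖ := by rw [abs_mul]; gcongr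
    have j3 : |e * (z t + e * y t)| ≤ |e| * (‖z‖ + |e| * ‖y‖) := by
      rw [abs_mul]; gcongr
      exact (abs_add_le _ _).trans (by rw [abs_mul]; gcongr)
    have := sq_le_sq' (abs_le.1 j1).1 (abs_le.1 j1).2
    have := sq_le_sq' (abs_le.1 j2).1 (abs_le.1 j2).2
    have := sq_le_sq' (abs_le.1 j3).1 (abs_le.1 j3).2
    linarith

end Pool.Agent.H113Z.FB
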