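import Pool.Agent.H113Z.FB.Helio
import Pool.Agent.H113Z.FB.Lin3

/-!
From the equations in the rotating frame to the inertial frame.
-/

set_option autoImplicit false

open Real

namespace Pool.Agent.H113Z.FB

/-- the vector with given coordinates -/
noncomputable def V (x y z : ℝ) : E3 := !₂[x, y, z]

theorem V_eq (x y z : ℝ) : V x y z = x • V 1 0 0 + y • V 0 1 0 + z • V 0 0 1 := by
  ext i; fin_cases i <;> simp [V]

theorem V_ext {x y z x' y' z' : ℝ} (h1 : x = x') (h2 : y = y') (h3 : z = z') :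
    V x y z = V x' y' z' := by rw [h1, h2, h3]

theorem V_add (x y z x' y' z' : ℝ) : V x y z + V x' y' z' = V (x + x') (y + y') (z + z') := by
  ext i; fin_cases i <;> simp [V]
theorem V_sub (x y z x' y' z' : ℝ) : V x y z - V x' y' z' = V (x - x') (y - y') (z - z') := by
  ext i; fin_cases i <;> simp [V]
theorem V_neg (x y z : ℝ) : -V x y z = V (-x) (-y) (-z) := by
  ext i; fin_cases i <;> simp [V]
theorem V_smul (c x y z : ℝ) : c • V x y z = V (c * x) (c * y) (c * z) := by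
  ext i; fin_cases i <;> simp [V]

theorem V_eq_zero {x y z : ℝ} (h : V x y z = 0) : x = 0 ∧ y = 0 ∧ z = 0 :=
  ⟨by simpa [V] using congrArg (fun v : E3 => v 0) h,
   by simpa [V] using congrArg (fun v : E3 => v 1) h,
   by simpa [V] using congrArg (fun v : E3 => v 2) h⟩

theorem V_norm_sq (x y z : ℝ) : ‖V x y z‖ ^ 2 = x ^ 2 + y ^ 2 + z ^ 2 := by
  rw [EuclideanSpace.norm_sq_eq, Fin.sum_univ_three]
  simp [V]

theorem V_norm {x y z r : ℝ} (hr : 0 ≤ r) (h : x ^ 2 + y ^ 2 + z ^ 2 = r ^ 2) :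
    ‖V x y z‖ = r := by
  rw [← sq_eq_sq₀ (norm_nonneg _) hr, V_norm_sq, h]

theorem V_deriv {x y z : ℝ → ℝ} {x' y' z' t : ℝ} (hx : HasDerivAt x x' t)
    (hy : HasDerivAt y y' t) (hz : HasDerivAt z z' t) :
    HasDerivAt (fun t => V (x t) (y t) (z t)) (V x' y' z') t := by
  have : (fun t => V (x t) (y t) (z t))
      = fun t => x t • V 1 0 0 + y t • V 0 1 0 + z t • V 0 0 1 := funext fun t => V_eq _ _ _
  rw [this, V_eq x' y' z']
  exact ((hx.smul_const _).add (hy.smul_const _)).add (hz.smul_const _)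

theorem V_cont {x y z : ℝ → ℝ} (hx : Continuous x) (hy : Continuous y) (hz : Continuous z) :
    Continuous (fun t => V (x t) (y t) (z t)) := by
  have : (fun t => V (x t) (y t) (z t))
      = fun t => x t • V 1 0 0 + y t • V 0 1 0 + z t • V 0 0 1 := funext fun t => V_eq _ _ _
  rw [this]; fun_prop

/-- the vector `(f θ, g θ, h θ)` rotated by the angle `ψ` about the vertical axis -/
noncomputable def rot (f g h : ℝ → ℝ) (ψ θ : ℝ) : E3 :=
  V (cos ψ * f θ - sin ψ * g θ) (sin ψ * f θ + cos ψ * g θ) (h θ)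

theorem rot_deriv {f g h f1 g1 h1 : ℝ → ℝ} (hf : ∀ t, HasDerivAt f (f1 t) t)
    (hg : ∀ t, HasDerivAt g (g1 t) t) (hh : ∀ t, HasDerivAt h (h1 t) t) (ν c d t : ℝ) :
    HasDerivAt (fun t => rot f g h (t + c) (ν * t + d))
      (rot (fun θ => ν * f1 θ - g θ) (fun θ => ν * g1 θ + f θ) (fun θ => ν * h1 θ)
        (t + c) (ν * t + d)) t := by
  have hψ : HasDerivAt (fun t : ℝ => t + c) 1 t := (hasDerivAt_id t).add_const c
  have hθ : HasDerivAt (fun t : ℝ => ν * t + d) ν t := by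
    simpa using ((hasDerivAt_id t).const_mul ν).add_const d
  have hF := (hf (ν * t + d)).comp t hθ
  have hG := (hg (ν * t + d)).comp t hθ
  have hH := (hh (ν * t + d)).comp t hθ
  unfold rot
  refine V_deriv ?_ ?_ ?_
  · exact ((hψ.cos.mul hF).sub (hψ.sin.mul hG)).congr_deriv (by simp; ring)
  · exact ((hψ.sin.mul hF).add (hψ.cos.mul hG)).congr_deriv (by simp; ring)
  · exact hH.congr_deriv (by ring)

theorem rot_cont {f g h : ℝ → ℝ} (hf : Continuous f) (hg : Continuous g) (hh : Continuous h)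
    (ν c d : ℝ) : Continuous (fun t => rot f g h (t + c) (ν * t + d)) := by
  unfold rot
  exact V_cont (by fun_prop) (by fun_prop) (by fun_prop)

theorem rot_norm_sq (f g h : ℝ → ℝ) (ψ θ : ℝ) :
    ‖rot f g h ψ θ‖ ^ 2 = f θ ^ 2 + g θ ^ 2 + h θ ^ 2 := by
  unfold rot
  rw [V_norm_sq]
  linear_combination (f θ ^ 2 + g θ ^ 2) * cos_sq_add_sin_sq ψ

/-- a solution of the symmetric equations in the rotating frame -/
structure Phys (ν x : ℝ) (A A1 A2 F F1 F2 Z Z1 Z2 s Q : ℝ → ℝ) : Prop where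
  jA : TJ A A1 A2
  jF : TJ F F1 F2
  jZ : TJ Z Z1 Z2
  ps : ∀ t, s (t + 2 * π) = s t
  pQ : ∀ t, Q (t + 2 * π) = Q t
  x0 : 0 < x
  x1 : x < 1
  s0 : ∀ t, 0 < s t
  Q0 : ∀ t, 0 < Q t
  hs : ∀ t, s t ^ 2 * (A t ^ 2 + F t ^ 2 + Z t ^ 2) = 1
  hQ : ∀ t, Q t ^ 2 * (((-1 / 2 * A (t - tau) - rt / 2 * F (t - tau))
      - (-1 / 2 * A (t + tau) + rt / 2 * F (t + tau))) ^ 2
    + ((rt / 2 * A (t - tau) - 1 / 2 * F (t - tau))
      - (-rt / 2 * A (t + tau) - 1 / 2 * F (t + tau))) ^ 2 + (Z (t - tau) - Z (t + tau)) ^ 2) = 3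
  eA : ∀ t, ν ^ 2 * A2 t - 2 * ν * F1 t - A t = -(1 - x) * s t ^ 3 * A t
    - rt * x * (s t ^ 3 * A t
      + s (t - tau) ^ 3 * (-1 / 2 * A (t - tau) - rt / 2 * F (t - tau))
      + s (t + tau) ^ 3 * (-1 / 2 * A (t + tau) + rt / 2 * F (t + tau)))
    + x / 3 * (Q (t + tau) ^ 3 * (-1 / 2 * A (t - tau) - rt / 2 * F (t - tau) - A t)
      + Q (t - tau) ^ 3 * (-1 / 2 * A (t + tau) + rt / 2 * F (t + tau) - A t))
  eF : ∀ t, ν ^ 2 * F2 t + 2 * ν * A1 t - F t = -(1 - x) * s t ^ 3 * F t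
    - rt * x * (s t ^ 3 * F t
      + s (t - tau) ^ 3 * (rt / 2 * A (t - tau) - 1 / 2 * F (t - tau))
      + s (t + tau) ^ 3 * (-rt / 2 * A (t + tau) - 1 / 2 * F (t + tau)))
    + x / 3 * (Q (t + tau) ^ 3 * (rt / 2 * A (t - tau) - 1 / 2 * F (t - tau) - F t)
      + Q (t - tau) ^ 3 * (-rt / 2 * A (t + tau) - 1 / 2 * F (t + tau) - F t))
  eZ : ∀ t, ν ^ 2 * Z2 t = -(1 - x) * s t ^ 3 * Z t
    - rt * x * (s t ^ 3 * Z t + s (t - tau) ^ 3 * Z (t - tau) + s (t + tau) ^ 3 * Z (t + tau))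
    + x / 3 * (Q (t + tau) ^ 3 * (Z (t - tau) - Z t) + Q (t - tau) ^ 3 * (Z (t + tau) - Z t))
  det : ∀ t, Z t * ((-1 / 2 * A (t - tau) - rt / 2 * F (t - tau))
        * (-rt / 2 * A (t + tau) - 1 / 2 * F (t + tau))
      - (-1 / 2 * A (t + tau) + rt / 2 * F (t + tau))
        * (rt / 2 * A (t - tau) - 1 / 2 * F (t - tau)))
    + Z (t - tau) * ((-1 / 2 * A (t + tau) + rt / 2 * F (t + tau)) * F t
      - A t * (-rt / 2 * A (t + tau) - 1 / 2 * F (t + tau)))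
    + Z (t + tau) * (A t * (rt / 2 * A (t - tau) - 1 / 2 * F (t - tau))
      - (-1 / 2 * A (t - tau) - rt / 2 * F (t - tau)) * F t) ≠ 0
  en : ∀ t, ((ν * A1 t - F t) ^ 2 + (ν * F1 t + A t) ^ 2 + (ν * Z1 t) ^ 2) / 2
    < (1 - x) * s t + x * Q t
  bd : ∃ C, ∀ t, A t ^ 2 + F t ^ 2 + Z t ^ 2 ≤ C

namespace Phys

variable {ν x : ℝ} {A A1 A2 F F1 F2 Z Z1 Z2 s Q : ℝ → ℝ}
  (h : Phys ν x A A1 A2 F F1 F2 Z Z1 Z2 s Q)
include h

theorem norm0 (ψ θ : ℝ) : ‖rot A F Z ψ θ‖ = 1 / s θ := by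
  have h0 := h.s0 θ
  rw [← sq_eq_sq₀ (norm_nonneg _) (by positivity), rot_norm_sq]
  field_simp
  linear_combination h.hs θ

theorem norm1 (ψ θ : ℝ) :
    ‖rot A F Z (ψ + tau) (θ - tau) - rot A F Z ψ θ‖ = rt / Q (θ + tau) := by
  have h0 := h.Q0 (θ + tau)
  have h1 := h.hQ (θ + tau)
  have hr := rt_pos
  rw [add_sub_cancel_right, per_pp h.jA.per, per_pp h.jF.per, per_pp h.jZ.per] at h1
  unfold rot
  rw [V_sub]
  refine V_norm (by positivity) ?_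
  rw [cos_p, sin_p]
  field_simp
  linear_combination (norm := (ring_nf; simp only [rt2]; ring)) 4 * h1
    + (4 * Q (θ + tau) ^ 2 * ((-1 / 2 * A (θ - tau) - rt / 2 * F (θ - tau) - A θ) ^ 2
      + (rt / 2 * A (θ - tau) - 1 / 2 * F (θ - tau) - F θ) ^ 2)) * cos_sq_add_sin_sq ψ

theorem rot_pp (ψ θ : ℝ) :
    rot A F Z (ψ + tau + tau) (θ - tau - tau) = rot A F Z (ψ - tau) (θ + tau) := by
  unfold rot
  rw [per_pp cos_add_two_pi, per_pp sin_add_two_pi, per_mm h.jA.per, per_mm h.jF.per,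
    per_mm h.jZ.per]

theorem rot_mm (ψ θ : ℝ) :
    rot A F Z (ψ - tau - tau) (θ + tau + tau) = rot A F Z (ψ + tau) (θ - tau) := by
  unfold rot
  rw [per_mm cos_add_two_pi, per_mm sin_add_two_pi, per_pp h.jA.per, per_pp h.jF.per,
    per_pp h.jZ.per]

theorem norm2 (ψ θ : ℝ) :
    ‖rot A F Z (ψ - tau) (θ + tau) - rot A F Z ψ θ‖ = rt / Q (θ - tau) := by
  have := h.norm1 (ψ - tau) (θ + tau)
  rw [sub_add_cancel, add_sub_cancel_right, per_pp h.pQ] at this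
  rw [norm_sub_rev, this]

theorem norm12 (ψ θ : ℝ) :
    ‖rot A F Z (ψ - tau) (θ + tau) - rot A F Z (ψ + tau) (θ - tau)‖ = rt / Q θ := by
  have := h.norm1 (ψ + tau) (θ - tau)
  rw [h.rot_pp, sub_add_cancel] at this
  exact this

theorem acc (ψ θ : ℝ) :
    rot (fun θ => ν * (ν * A2 θ - F1 θ) - (ν * F1 θ + A θ))
      (fun θ => ν * (ν * F2 θ + A1 θ) + (ν * A1 θ - F θ)) (fun θ => ν * (ν * Z2 θ)) ψ θ
    = -(((1 - x) / ‖rot A F Z ψ θ‖ ^ 3) • rot A F Z ψ θ)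
      - ((rt * x / ‖rot A F Z ψ θ‖ ^ 3) • rot A F Z ψ θ
        + (rt * x / ‖rot A F Z (ψ + tau) (θ - tau)‖ ^ 3) • rot A F Z (ψ + tau) (θ - tau)
        + (rt * x / ‖rot A F Z (ψ - tau) (θ + tau)‖ ^ 3) • rot A F Z (ψ - tau) (θ + tau))
      + (rt * x / ‖rot A F Z (ψ + tau) (θ - tau) - rot A F Z ψ θ‖ ^ 3)
        • (rot A F Z (ψ + tau) (θ - tau) - rot A F Z ψ θ)
      + (rt * x / ‖rot A F Z (ψ - tau) (θ + tau) - rot A F Z ψ θ‖ ^ 3)
        • (rot A F Z (ψ - tau) (θ + tau) - rot A F Z ψ θ) := by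
  have k1 : ∀ c t : ℝ, c / (1 / s t) ^ 3 = c * s t ^ 3 := fun c t => by
    have := (h.s0 t).ne'; field_simp
  have k2 : ∀ t : ℝ, rt * x / (rt / Q t) ^ 3 = x / 3 * Q t ^ 3 := fun t => by
    have := (h.Q0 t).ne'; have := rt_pos.ne'; field_simp; rw [rt2]; ring
  rw [h.norm1, h.norm2]
  simp only [h.norm0, k1, k2]
  unfold rot
  simp only [V_smul, V_sub, V_add, V_neg, cos_p, sin_p, cos_m, sin_m]
  refine V_ext ?_ ?_ ?_
  · linear_combination cos ψ * h.eA θ - sin ψ * h.eF θ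
  · linear_combination sin ψ * h.eA θ + cos ψ * h.eF θ
  · linear_combination h.eZ θ

theorem li (ψ θ a b c : ℝ) (hz : a • rot A F Z ψ θ + b • rot A F Z (ψ + tau) (θ - tau)
    + c • rot A F Z (ψ - tau) (θ + tau) = 0) : a = 0 ∧ b = 0 ∧ c = 0 := by
  unfold rot at hz
  simp only [V_smul, V_add, cos_p, sin_p, cos_m, sin_m] at hz
  obtain ⟨h1, h2, h3⟩ := V_eq_zero hz
  have hd := h.det θ
  set x0 := A θ
  set y0 := F θ
  set z0 := Z θ
  set x1 := -1 / 2 * A (θ - tau) - rt / 2 * F (θ - tau) with hx1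
  set y1 := rt / 2 * A (θ - tau) - 1 / 2 * F (θ - tau) with hy1
  set x2 := -1 / 2 * A (θ + tau) + rt / 2 * F (θ + tau) with hx2
  set y2 := -rt / 2 * A (θ + tau) - 1 / 2 * F (θ + tau) with hy2
  set z1 := Z (θ - tau)
  set z2 := Z (θ + tau)
  have e1 : a * x0 + b * x1 + c * x2 = 0 := by
    rw [hx1, hx2]
    linear_combination cos ψ * h1 + sin ψ * h2
      - (a * x0 + b * (-1 / 2 * A (θ - tau) - rt / 2 * F (θ - tau))
        + c * (-1 / 2 * A (θ + tau) + rt / 2 * F (θ + tau))) * cos_sq_add_sin_sq ψ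
  have e2 : a * y0 + b * y1 + c * y2 = 0 := by
    rw [hy1, hy2]
    linear_combination cos ψ * h2 - sin ψ * h1
      - (a * y0 + b * (rt / 2 * A (θ - tau) - 1 / 2 * F (θ - tau))
        + c * (-rt / 2 * A (θ + tau) - 1 / 2 * F (θ + tau))) * cos_sq_add_sin_sq ψ
  refine ⟨(mul_eq_zero.1 (?_ : a * _ = 0)).resolve_right hd,
    (mul_eq_zero.1 (?_ : b * _ = 0)).resolve_right hd,
    (mul_eq_zero.1 (?_ : c * _ = 0)).resolve_right hd⟩
  · linear_combination (x1 * y2 - x2 * y1) * h3 + (y1 * z2 - y2 * z1) * e1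
      + (x2 * z1 - x1 * z2) * e2
  · linear_combination (x2 * y0 - x0 * y2) * h3 + (y2 * z0 - y0 * z2) * e1
      + (x0 * z2 - x2 * z0) * e2
  · linear_combination (x0 * y1 - x1 * y0) * h3 + (y0 * z1 - y1 * z0) * e1
      + (x1 * z0 - x0 * z1) * e2

theorem final :
    ∃ (m : Fin 4 → ℝ) (x : Fin 4 → ℝ → EuclideanSpace ℝ (Fin 3)),
      (∀ i, 0 < m i) ∧
      (∀ i, ContDiff ℝ 2 (x i)) ∧
      (∀ t : ℝ, ∀ i j : Fin 4, i ≠ j → x i t ≠ x j t) ∧
      (∀ t : ℝ, ∀ i : Fin 4,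
        deriv (deriv (x i)) t =
          ∑ j ∈ Finset.univ.erase i, (m j / ‖x j t - x i t‖ ^ 3) • (x j t - x i t)) ∧
      (∀ t : ℝ, ∑ i, m i • x i t = 0) ∧
      (∀ t : ℝ,
        (1 / 2 : ℝ) * ∑ i, m i * ‖deriv (x i) t‖ ^ 2
          - (1 / 2 : ℝ) * ∑ i, ∑ j ∈ Finset.univ.erase i, m i * m j / ‖x i t - x j t‖ < 0) ∧
      (∀ t : ℝ, AffineIndependent ℝ (fun i => x i t)) ∧
      (∃ R : ℝ, ∀ i : Fin 4, ∀ t : ℝ, ‖x i t‖ ≤ R) := by
  have d1 := rot_deriv h.jA.d1 h.jF.d1 h.jZ.d1 ν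
  have d2 := rot_deriv (f := fun θ => ν * A1 θ - F θ) (g := fun θ => ν * F1 θ + A θ)
    (h := fun θ => ν * Z1 θ) (fun t => ((h.jA.d2 t).const_mul ν).sub (h.jF.d1 t))
    (fun t => ((h.jF.d2 t).const_mul ν).add (h.jA.d1 t)) (fun t => (h.jZ.d2 t).const_mul ν) ν
  have c2 := rot_cont (f := fun θ => ν * (ν * A2 θ - F1 θ) - (ν * F1 θ + A θ))
    (g := fun θ => ν * (ν * F2 θ + A1 θ) + (ν * A1 θ - F θ)) (h := fun θ => ν * (ν * Z2 θ))
    (by have := h.jA.c2; have := h.jF.c1; have := h.jA.c0; fun_prop)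
    (by have := h.jF.c2; have := h.jA.c1; have := h.jF.c0; fun_prop)
    (by have := h.jZ.c2; fun_prop) ν
  obtain ⟨C, hC⟩ := h.bd
  have hb : ∀ ψ θ, ‖rot A F Z ψ θ‖ ≤ Real.sqrt C := fun ψ θ =>
    Real.le_sqrt_of_sq_le (by rw [rot_norm_sq]; exact hC θ)
  have hm : 0 < rt * x := mul_pos rt_pos h.x0
  refine helio (1 - x) (rt * x) (by linarith [h.x1]) hm _ _ _ _ _ _ _ _ _
    (d1 0 0) (d1 tau (-tau)) (d1 (-tau) tau) (d2 0 0) (d2 tau (-tau)) (d2 (-tau) tau)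
    (c2 0 0) (c2 tau (-tau)) (c2 (-tau) tau) (fun t => ?_) (fun t => ?_) (fun t => ?_)
    (fun t a b c hz => ?_) (fun t => ?_) (Real.sqrt C) (fun t => ⟨hb _ _, hb _ _, hb _ _⟩)
  · simp only [add_zero, ← sub_eq_add_neg]
    exact h.acc t (ν * t)
  · simp only [add_zero, ← sub_eq_add_neg]
    have := h.acc (t + tau) (ν * t - tau)
    rw [h.rot_pp, add_sub_cancel_right, sub_add_cancel] at this
    exact this
  · simp only [add_zero, ← sub_eq_add_neg]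
    have := h.acc (t - tau) (ν * t + tau)
    rw [h.rot_mm, add_sub_cancel_right, sub_add_cancel] at this
    exact this
  · simp only [add_zero, ← sub_eq_add_neg] at hz
    exact h.li t (ν * t) a b c hz
  · simp only [add_zero, ← sub_eq_add_neg, rot_norm_sq, h.norm0, h.norm1, h.norm2, h.norm12,
      one_div_one_div]
    have k : ∀ t, 1 / (rt / Q t) = Q t / rt := fun t => one_div_div _ _
    have k2 : rt * x * (Q (ν * t + tau) / rt + Q (ν * t - tau) / rt + Q (ν * t) / rt)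
        = x * (Q (ν * t + tau) + Q (ν * t - tau) + Q (ν * t)) := by
      have := rt_pos.ne'; field_simp
    rw [k, k, k, k2]
    linarith [h.en (ν * t), h.en (ν * t - tau), h.en (ν * t + tau)]

end Phys

end Pool.Agent.H113Z.FB
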